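import Pool.Agent.Helper29.LS.Norm

namespace Pool.Agent.Helper29.LS

open Polynomial Finset
open scoped LaurentPolynomial

lemma burau_pow (m : ℕ) (w : List (Fin m × Bool)) (q : ℕ) :
    burau m (List.replicate q w).flatten = burau m w ^ q := by
  induction q with
  | zero => simp [burau]
  | succ n ih =>
    rw [List.replicate_succ, List.flatten_cons, pow_succ', ← ih]
    simp [burau]

/-- reduction of coefficients modulo `p` -/
noncomputable def red (p : ℕ) : ℤ[T;T⁻¹] →+* (ZMod p)[T;T⁻¹] :=
  LaurentPolynomial.eval₂ (LaurentPolynomial.C.comp (Int.castRingHom (ZMod p)))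
    (LaurentPolynomial.isUnit_T (R := ZMod p) 1).unit

lemma red_toLaurent (p : ℕ) (g : ℤ[X]) :
    red p (toLaurent g) = toLaurent (g.map (Int.castRingHom (ZMod p))) := by
  rw [red, LaurentPolynomial.eval₂_toLaurent]
  induction g using Polynomial.induction_on' with
  | add a b ha hb => rw [eval₂_add, ha, hb, Polynomial.map_add, map_add]
  | monomial n a =>
    rw [eval₂_monomial, Polynomial.map_monomial, ← C_mul_X_pow_eq_monomial,
      Polynomial.toLaurent_C_mul_X_pow, RingHom.comp_apply, IsUnit.unit_spec,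
      LaurentPolynomial.T_pow, mul_one]

lemma red_C (p : ℕ) (e : ℤ) : red p (LaurentPolynomial.C e) = LaurentPolynomial.C (e : ZMod p) := by
  rw [red, LaurentPolynomial.eval₂_C]
  simp

lemma red_T_nat (p n : ℕ) : red p (LaurentPolynomial.T (n : ℤ)) = LaurentPolynomial.T (n : ℤ) := by
  rw [← Polynomial.toLaurent_X_pow, red_toLaurent, Polynomial.map_pow, map_X,
    Polynomial.toLaurent_X_pow]

lemma red_T (p : ℕ) (k : ℤ) : red p (LaurentPolynomial.T k) = LaurentPolynomial.T k := by
  obtain ⟨n, rfl | rfl⟩ := k.eq_nat_or_neg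
  · exact red_T_nat p n
  · have h1 : red p (LaurentPolynomial.T (-(n : ℤ))) * LaurentPolynomial.T (n : ℤ) = 1 := by
      rw [← red_T_nat, ← map_mul, ← LaurentPolynomial.T_add]
      simp
    have h2 : (LaurentPolynomial.T (-(n : ℤ)) : (ZMod p)[T;T⁻¹]) *
        LaurentPolynomial.T (n : ℤ) = 1 := by
      rw [← LaurentPolynomial.T_add]
      simp
    exact (LaurentPolynomial.isUnit_T (n : ℤ)).mul_right_cancel (h1.trans h2.symm)

lemma toLaurent_ne {R : Type*} [CommRing R] {g : R[X]} (h : g ≠ 0) : toLaurent g ≠ 0 :=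
  Polynomial.toLaurent_ne_zero.mpr h

lemma geo_ne {R : Type*} [CommRing R] [Nontrivial R] (m : ℕ) :
    (∑ j ∈ range (m + 1), X ^ j : R[X]) ≠ 0 := by
  intro h
  have := congrArg (fun g => g.coeff 0) h
  simp only [finsetSum_coeff, coeff_X_pow, coeff_zero] at this
  rw [Finset.sum_ite_eq (range (m + 1)) 0, if_pos (by simp)] at this
  exact one_ne_zero this

theorem murasugi_braid {p : ℕ} [Fact p.Prime] (r : ℕ) {m : ℕ} (hm : 1 ≤ m)
    (w : List (Fin m × Bool)) {D f : ℤ[X]} (hf0 : f.coeff 0 ≠ 0)
    (hD : IsAlex m (List.replicate (p ^ r) w).flatten D) (hf : IsAlex m w f) :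
    Murasugi p (p ^ r) (m + 1) D f := by
  have hp : p.Prime := Fact.out
  have : Nonempty (Fin m) := ⟨⟨0, hm⟩⟩
  obtain ⟨e, k, he, hD⟩ := hD
  obtain ⟨e', k', he', hf⟩ := hf
  rw [burau_pow] at hD
  set B := burau m w with hB
  set q := p ^ r with hq
  have hqpos : 0 < q := Nat.pow_pos hp.pos
  have hee : e * e = 1 := by rcases he with rfl | rfl <;> rfl
  refine ⟨?_, ?_⟩
  · -- divisibility
    have h1 : (1 - B ^ q).det = (1 - B).det * (∑ i ∈ range q, B ^ i).det := by
      rw [← Matrix.det_mul, mul_neg_geom_sum]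
    rw [← hD, ← hf, map_mul, map_mul] at h1
    have hG := toLaurent_ne (geo_ne (R := ℤ) m)
    have h2 : LaurentPolynomial.C e * LaurentPolynomial.T k * toLaurent D =
        LaurentPolynomial.C e' * LaurentPolynomial.T k' * toLaurent f *
          (∑ i ∈ range q, B ^ i).det := by
      apply mul_right_cancel₀ hG
      linear_combination h1
    have h3 : toLaurent D = toLaurent f * (LaurentPolynomial.C e * LaurentPolynomial.C e' *
        LaurentPolynomial.T (-k) * LaurentPolynomial.T k' * (∑ i ∈ range q, B ^ i).det) := by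
      have hTT : (LaurentPolynomial.T (-k) : ℤ[T;T⁻¹]) * LaurentPolynomial.T k = 1 := by
        rw [← LaurentPolynomial.T_add]
        simp
      have hCC : (LaurentPolynomial.C e : ℤ[T;T⁻¹]) * LaurentPolynomial.C e = 1 := by
        rw [← map_mul, hee, map_one]
      calc toLaurent D = (LaurentPolynomial.C e * LaurentPolynomial.C e) *
            (LaurentPolynomial.T (-k) * LaurentPolynomial.T k) * toLaurent D := by
              rw [hTT, hCC]; ring
        _ = LaurentPolynomial.C e * LaurentPolynomial.T (-k) *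
            (LaurentPolynomial.C e * LaurentPolynomial.T k * toLaurent D) := by ring
        _ = _ := by rw [h2]; ring
    obtain ⟨n, g, hg⟩ := LaurentPolynomial.exists_T_pow (LaurentPolynomial.C e *
      LaurentPolynomial.C e' * LaurentPolynomial.T (-k) * LaurentPolynomial.T k' *
        (∑ i ∈ range q, B ^ i).det)
    have h4 : D * X ^ n = f * g := by
      apply Polynomial.toLaurent_injective
      rw [map_mul, map_mul, hg, Polynomial.toLaurent_X_pow, h3]
      ring
    have h5 : X ^ n ∣ g := by
      refine Prime.pow_dvd_of_dvd_mul_left Polynomial.prime_X n (a := f) ?_ ⟨D, ?_⟩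
      · rw [X_dvd_iff]; exact hf0
      · rw [← h4]; ring
    obtain ⟨g', rfl⟩ := h5
    refine ⟨g', ?_⟩
    have hX : (X ^ n : ℤ[X]) ≠ 0 := pow_ne_zero _ X_ne_zero
    apply mul_right_cancel₀ hX
    rw [h4]
    ring
  · -- congruence
    have hcp : CharP (ZMod p)[T;T⁻¹] p :=
      charP_of_injective_ringHom (f := (LaurentPolynomial.C : ZMod p →+* (ZMod p)[T;T⁻¹]))
        (RingHom.injective _) p
    have h1 : red p (1 - B ^ q).det = red p (1 - B).det ^ q := by
      rw [RingHom.map_det, RingHom.map_det, ← Matrix.det_pow, map_sub, map_sub, map_pow, map_one,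
        hq, sub_pow_char_pow_of_commute p r (Commute.one_left _), one_pow]
    rw [← hD, ← hf] at h1
    simp only [map_mul, mul_pow, red_C, red_T, red_toLaurent] at h1
    have hGm : (∑ j ∈ range (m + 1), X ^ j : ℤ[X]).map (Int.castRingHom (ZMod p)) =
        ∑ j ∈ range (m + 1), X ^ j := by
      rw [Polynomial.map_sum]
      simp
    rw [hGm] at h1
    set G : (ZMod p)[X] := ∑ j ∈ range (m + 1), X ^ j with hG
    have hG0 : toLaurent G ≠ 0 := toLaurent_ne (geo_ne m)
    set D' := D.map (Int.castRingHom (ZMod p)) with hD'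
    set f' := f.map (Int.castRingHom (ZMod p)) with hf'
    have hGq : toLaurent G ^ q = toLaurent G ^ (q - 1) * toLaurent G := by
      rw [← pow_succ, Nat.sub_add_cancel hqpos]
    have h2 : LaurentPolynomial.C (e : ZMod p) * LaurentPolynomial.T k * toLaurent D' =
        LaurentPolynomial.C (e' : ZMod p) ^ q * LaurentPolynomial.T k' ^ q *
          (toLaurent f' ^ q * toLaurent G ^ (q - 1)) := by
      apply mul_right_cancel₀ hG0
      rw [hGq] at h1
      linear_combination h1
    set N : ℤ := |k| + |q * k'| with hN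
    have hkN : 0 ≤ k + N := by
      have := neg_abs_le k
      have := abs_nonneg ((q : ℤ) * k')
      omega
    have hkN' : 0 ≤ q * k' + N := by
      have := neg_abs_le ((q : ℤ) * k')
      have := abs_nonneg k
      omega
    refine ⟨(e : ZMod p) * (e' : ZMod p) ^ q, (q * k' + N).toNat, (k + N).toNat, ?_⟩
    apply Polynomial.toLaurent_injective
    have hCC : (LaurentPolynomial.C (e : ZMod p) : (ZMod p)[T;T⁻¹]) *
        LaurentPolynomial.C (e : ZMod p) = 1 := by
      rw [← map_mul, ← Int.cast_mul, hee, Int.cast_one, map_one]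
    have hl : toLaurent (X ^ (k + N).toNat * D') =
        LaurentPolynomial.T k * LaurentPolynomial.T N * toLaurent D' := by
      rw [map_mul, Polynomial.toLaurent_X_pow, Int.toNat_of_nonneg hkN, LaurentPolynomial.T_add]
    have hr : toLaurent (C ((e : ZMod p) * (e' : ZMod p) ^ q) * X ^ (q * k' + N).toNat *
        (f' ^ q * G ^ (q - 1))) = LaurentPolynomial.C (e : ZMod p) *
          LaurentPolynomial.C (e' : ZMod p) ^ q * (LaurentPolynomial.T k' ^ q *
            LaurentPolynomial.T N) * (toLaurent f' ^ q * toLaurent G ^ (q - 1)) := by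
      rw [map_mul toLaurent, map_mul toLaurent, Polynomial.toLaurent_X_pow,
        Int.toNat_of_nonneg hkN', Polynomial.toLaurent_C, LaurentPolynomial.T_add,
        map_mul LaurentPolynomial.C, map_pow LaurentPolynomial.C, map_mul toLaurent,
        map_pow toLaurent, map_pow toLaurent, LaurentPolynomial.T_pow]
    rw [hl, hr]
    calc LaurentPolynomial.T k * LaurentPolynomial.T N * toLaurent D'
        = (LaurentPolynomial.C (e : ZMod p) * LaurentPolynomial.C (e : ZMod p)) *
          (LaurentPolynomial.T k * LaurentPolynomial.T N * toLaurent D') := by rw [hCC, one_mul]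
      _ = LaurentPolynomial.C (e : ZMod p) * LaurentPolynomial.T N *
          (LaurentPolynomial.C (e : ZMod p) * LaurentPolynomial.T k * toLaurent D') := by ring
      _ = _ := by rw [h2]; ring

end Pool.Agent.Helper29.LS
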