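import Pool.Agent.Helper29.LS.Defs

/-!
Alexander polynomials of periodic L-space knots: comparison of partial sums of coefficients.
-/

namespace Pool.Agent.Helper29.LS

open Polynomial Finset

lemma ps_succ {R : Type*} [CommRing R] (g : R[X]) (m : ℕ) :
    ps g (m + 1) = ps g m + g.coeff (m + 1) := by
  unfold ps
  rw [Finset.sum_range_succ]

lemma ps_zero {R : Type*} [CommRing R] (g : R[X]) : ps g 0 = g.coeff 0 := by
  simp [ps]

lemma ps_of_le {R : Type*} [CommRing R] (g : R[X]) {m : ℕ} (h : g.natDegree ≤ m) :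
    ps g m = g.eval 1 := by
  unfold ps
  rw [Polynomial.eval_eq_sum_range' (Nat.lt_succ_of_le h)]
  simp

lemma one_sub_X_mul_ps {R : Type*} [CommRing R] (g : R[X]) :
    (1 - PowerSeries.X) * PowerSeries.mk (fun n => ps g n) = (g : PowerSeries R) := by
  ext n
  rw [sub_mul, one_mul, map_sub]
  rcases n with _ | n
  · simp [ps]
  · rw [PowerSeries.coeff_succ_X_mul]
    simp [ps_succ]

lemma ps_ite {R : Type*} [CommRing R] (g : R[X]) {q : ℕ} (hq : 0 < q) :
    (1 - PowerSeries.X ^ q) * PowerSeries.mk (fun n => if q ∣ n then ps g (n / q) else 0) =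
      (expand R q g : PowerSeries R) := by
  ext n
  rw [sub_mul, one_mul, map_sub, PowerSeries.coeff_X_pow_mul', PowerSeries.coeff_mk,
    PowerSeries.coeff_mk, Polynomial.coeff_coe, Polynomial.coeff_expand hq]
  by_cases hn : q ∣ n
  · obtain ⟨m, rfl⟩ := hn
    rcases m with _ | m
    · simp [ps, hq.ne']
    · have h1 : q ≤ q * (m + 1) := Nat.le_mul_of_pos_right _ (Nat.succ_pos _)
      have h2 : q * (m + 1) - q = q * m := by rw [Nat.mul_succ]; omega
      rw [if_pos (dvd_mul_right _ _), if_pos h1, h2, if_pos (dvd_mul_right _ _),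
        if_pos (dvd_mul_right _ _), Nat.mul_div_cancel_left _ hq, Nat.mul_div_cancel_left _ hq,
        ps_succ]
      ring
  · rw [if_neg hn, if_neg hn]
    by_cases h1 : q ≤ n
    · rw [if_pos h1, if_neg]
      · simp
      · intro h2
        apply hn
        have := (Nat.dvd_sub_iff_left h1 dvd_rfl).1 h2
        exact this
    · rw [if_neg h1]
      simp

lemma ps_map {R S : Type*} [CommRing R] [CommRing S] (φ : R →+* S) (g : R[X]) (m : ℕ) :
    ps (g.map φ) m = φ (ps g m) := by
  simp [ps]

/-- extension by zero to the negative integers -/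
def ez (a : ℕ → ℤ) (n : ℤ) : ℤ := if n < 0 then 0 else a n.toNat

lemma ez_nat (a : ℕ → ℤ) (n : ℕ) : ez a n = a n := by
  simp [ez]

lemma ez_neg (a : ℕ → ℤ) {n : ℤ} (h : n < 0) : ez a n = 0 := by
  simp [ez, h]

end Pool.Agent.Helper29.LS
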