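import Mathlib

/-!
Definitions for the Alexander polynomials of periodic L-space knots.
-/

namespace Pool.Agent.Helper29.LS

open Polynomial Finset
open scoped LaurentPolynomial

/-- partial sums of the coefficients -/
def ps {R : Type*} [CommRing R] (g : R[X]) (m : ℕ) : R := ∑ i ∈ range (m + 1), g.coeff i

/-- The condition of Ozsvath and Szabo: constant coefficient `1`, value `1` at `1`, and all partial
sums `a_0 + ... + a_m` of the coefficients equal to `0` or `1` (equivalently: the non-zero
coefficients are alternately `1` and `-1`, the first and the last being `1`). -/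
def OSType (D : ℤ[X]) : Prop := D.coeff 0 = 1 ∧ D.eval 1 = 1 ∧ ∀ m, ps D m = 0 ∨ ps D m = 1

/-- Murasugi's relations between the Alexander polynomial `D` of a knot with period `q` (a power of
the prime `p`) and the Alexander polynomial `f` of its quotient knot, `lam` being the linking number
with the axis: `f` divides `D`, and `D = f ^ q (1 + X + ... + X ^ (lam - 1)) ^ (q - 1)` modulo `p`
up to units `c X ^ i`. -/
structure Murasugi (p q lam : ℕ) (D f : ℤ[X]) : Prop where
  dvd : f ∣ D
  congr : ∃ (c : ZMod p) (i j : ℕ), X ^ j * D.map (Int.castRingHom (ZMod p)) =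
    C c * X ^ i * (f.map (Int.castRingHom (ZMod p)) ^ q * (∑ k ∈ range lam, X ^ k) ^ (q - 1))

/-- The reduced Burau matrix of the braid generator `σ_i` (`true`) or of its inverse (`false`);
the braid has `m + 1` strands. -/
noncomputable def gen (m : ℕ) (i : Fin m) : Bool → Matrix (Fin m) (Fin m) ℤ[T;T⁻¹]
  | true => fun a b => if a = i then
      (if (b : ℕ) + 1 = i then LaurentPolynomial.T 1 else if b = i then -LaurentPolynomial.T 1
        else if (b : ℕ) = i + 1 then 1 else 0)
      else if a = b then 1 else 0
  | false => fun a b => if a = i then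
      (if (b : ℕ) + 1 = i then 1 else if b = i then -LaurentPolynomial.T (-1)
        else if (b : ℕ) = i + 1 then LaurentPolynomial.T (-1) else 0)
      else if a = b then 1 else 0

/-- The reduced Burau matrix of a braid word. -/
noncomputable def burau (m : ℕ) (w : List (Fin m × Bool)) : Matrix (Fin m) (Fin m) ℤ[T;T⁻¹] :=
  (w.map fun s => gen m s.1 s.2).prod

/-- `D` is the Alexander polynomial (up to units) of the closure of the braid word `w` on
`m + 1` strands: Burau's formula `det (1 - B) = ± t ^ k (1 + t + ... + t ^ m) D`. -/
def IsAlex (m : ℕ) (w : List (Fin m × Bool)) (D : ℤ[X]) : Prop :=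
  ∃ e k : ℤ, (e = 1 ∨ e = -1) ∧ LaurentPolynomial.C e * LaurentPolynomial.T k *
    toLaurent (D * ∑ j ∈ range (m + 1), X ^ j) = (1 - burau m w).det

end Pool.Agent.Helper29.LS
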