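import Mathlib

namespace Pool.Agent.Helper29.LS

open Polynomial IntermediateField

/-- degree over `ℚ` -/
noncomputable def dg (x : ℂ) : ℕ := (minpoly ℚ x).natDegree

lemma dg_eq {x : ℂ} (hx : IsIntegral ℚ x) : Module.finrank ℚ ℚ⟮x⟯ = dg x :=
  IntermediateField.adjoin.finrank hx

lemma fd {x : ℂ} (hx : IsIntegral ℚ x) : FiniteDimensional ℚ ℚ⟮x⟯ :=
  IntermediateField.adjoin.finiteDimensional hx

lemma dg_le_of_mem {x y : ℂ} (hx : IsIntegral ℚ x) (hy : y ∈ ℚ⟮x⟯) : dg y ≤ dg x := by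
  have := fd hx
  have hyi : IsIntegral ℚ y := by
    have h1 : IsIntegral ℚ (⟨y, hy⟩ : ℚ⟮x⟯) := Algebra.IsIntegral.isIntegral _
    have h2 := h1.map (ℚ⟮x⟯).val
    simpa using h2
  rw [← dg_eq hx, ← dg_eq hyi]
  have hle : ℚ⟮y⟯ ≤ ℚ⟮x⟯ := by
    rw [IntermediateField.adjoin_simple_le_iff]
    exact hy
  exact IntermediateField.finrank_le_of_le_right hle

lemma dg_primitive {z : ℂ} {o : ℕ} (ho : 0 < o) (hz : IsPrimitiveRoot z o) :
    dg z = o.totient := by
  unfold dg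
  rw [← Polynomial.cyclotomic_eq_minpoly_rat hz ho, natDegree_cyclotomic]

/-- a root of unity of order divisible by `p` in a field of small degree -/
lemma tot {p : ℕ} (hp : p.Prime) {x z : ℂ} (hx : IsIntegral ℚ x) (hz : z ∈ ℚ⟮x⟯) {o : ℕ}
    (ho : 0 < o) (hzo : IsPrimitiveRoot z o) (hpo : p ∣ o) : p - 1 ≤ dg x := by
  have h1 := dg_le_of_mem hx hz
  rw [dg_primitive ho hzo] at h1
  have h2 : p - 1 ∣ o.totient := by
    rw [← Nat.totient_prime hp]
    exact Nat.totient_dvd_of_dvd hpo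
  exact (Nat.le_of_dvd (Nat.totient_pos.2 ho) h2).trans h1

lemma capelli {p : ℕ} (hp : p.Prime) {x : ℂ} (hx : IsIntegral ℚ x) (hx0 : x ≠ 0)
    (hd : dg x < p - 1) : x ∈ ℚ⟮x ^ p⟯ := by
  set F := ℚ⟮x ^ p⟯ with hF
  have hmem : x ^ p ∈ F := IntermediateField.mem_adjoin_simple_self ℚ _
  by_cases hb : ∀ b : F, b ^ p ≠ ⟨x ^ p, hmem⟩
  · exfalso
    have hirr := X_pow_sub_C_irreducible_of_prime hp hb
    have hmin : minpoly F x = X ^ p - C (⟨x ^ p, hmem⟩ : F) := by
      symm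
      apply minpoly.eq_of_irreducible_of_monic hirr
      · simp only [map_sub, map_pow, aeval_X, aeval_C]
        rw [sub_eq_zero]
        rfl
      · exact monic_X_pow_sub_C _ hp.ne_zero
    have h1 : (minpoly F x).natDegree ≤ ((minpoly ℚ x).map (algebraMap ℚ F)).natDegree := by
      apply natDegree_le_of_dvd (minpoly.dvd_map_of_isScalarTower ℚ F x)
      exact (Polynomial.map_ne_zero (minpoly.ne_zero hx))
    rw [hmin, natDegree_X_pow_sub_C, natDegree_map] at h1
    unfold dg at hd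
    omega
  · push Not at hb
    obtain ⟨b, hb⟩ := hb
    have hb1 : (b : ℂ) ^ p = x ^ p := by
      have := congrArg (fun y : F => (y : ℂ)) hb
      simpa using this
    by_cases hxb : x = b
    · rw [hxb]
      exact b.2
    · exfalso
      have hb0 : (b : ℂ) ≠ 0 := by
        intro h
        rw [h, zero_pow hp.ne_zero] at hb1
        exact pow_ne_zero _ hx0 hb1.symm
      have hprim : IsPrimitiveRoot (x / b) p := by
        have h1 : (x / b) ^ p = 1 := by
          rw [div_pow, hb1, div_self (pow_ne_zero _ hx0)]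
        have h2 : x / b ≠ 1 := by
          intro h
          apply hxb
          rwa [div_eq_one_iff_eq hb0] at h
        rw [IsPrimitiveRoot.iff_orderOf]
        have := Fact.mk hp
        exact orderOf_eq_prime h1 h2
      have hFx : F ≤ ℚ⟮x⟯ := by
        rw [hF, IntermediateField.adjoin_simple_le_iff]
        exact pow_mem (IntermediateField.mem_adjoin_simple_self ℚ x) p
      have hmem2 : x / b ∈ ℚ⟮x⟯ :=
        div_mem (IntermediateField.mem_adjoin_simple_self ℚ x) (hFx b.2)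
      have := tot hp hx hmem2 hp.pos hprim dvd_rfl
      omega

lemma capelli_pow {p : ℕ} (hp : p.Prime) (r : ℕ) {x : ℂ} (hx : IsIntegral ℚ x) (hx0 : x ≠ 0)
    (hd : dg x < p - 1) : x ∈ ℚ⟮x ^ p ^ r⟯ := by
  induction r generalizing x with
  | zero =>
    rw [pow_zero, pow_one]
    exact IntermediateField.mem_adjoin_simple_self ℚ x
  | succ r ih =>
    have h1 := capelli hp hx hx0 hd
    have h2 : x ^ p ∈ ℚ⟮x⟯ := pow_mem (IntermediateField.mem_adjoin_simple_self ℚ x) p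
    have h3 : dg (x ^ p) < p - 1 := lt_of_le_of_lt (dg_le_of_mem hx h2) hd
    have h4 := ih (hx.pow p) (pow_ne_zero p hx0) h3
    have h5 : ℚ⟮x ^ p⟯ ≤ ℚ⟮(x ^ p) ^ p ^ r⟯ := by
      rw [IntermediateField.adjoin_simple_le_iff]
      exact h4
    have h6 : (x ^ p) ^ p ^ r = x ^ p ^ (r + 1) := by
      rw [← pow_mul, ← pow_succ']
    rw [← h6]
    exact h5 h1

lemma pow_inj {p : ℕ} (hp : p.Prime) (r : ℕ) {x y : ℂ} (hx : IsIntegral ℚ x) (hx0 : x ≠ 0)
    (hdx : dg x < p - 1) (hy : IsIntegral ℚ y) (hy0 : y ≠ 0) (hdy : dg y < p - 1)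
    (h : x ^ p ^ r = y ^ p ^ r) : x = y := by
  have h1 := capelli_pow hp r hx hx0 hdx
  rw [h] at h1
  have h2 : ℚ⟮y ^ p ^ r⟯ ≤ ℚ⟮y⟯ := by
    rw [IntermediateField.adjoin_simple_le_iff]
    exact pow_mem (IntermediateField.mem_adjoin_simple_self ℚ y) _
  have h3 : x / y ∈ ℚ⟮y⟯ := div_mem (h2 h1) (IntermediateField.mem_adjoin_simple_self ℚ y)
  have h4 : (x / y) ^ p ^ r = 1 := by
    rw [div_pow, h, div_self (pow_ne_zero _ hy0)]
  by_contra hne
  have h5 : x / y ≠ 1 := by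
    intro h6
    rw [div_eq_one_iff_eq hy0] at h6
    exact hne h6
  obtain ⟨a, ha, ha2⟩ := (Nat.dvd_prime_pow hp).1 (orderOf_dvd_of_pow_eq_one h4)
  have ha0 : a ≠ 0 := by
    rintro rfl
    rw [pow_zero, orderOf_eq_one_iff] at ha2
    exact h5 ha2
  have h6 : IsPrimitiveRoot (x / y) (orderOf (x / y)) := IsPrimitiveRoot.orderOf _
  have := tot hp hy h3 (by rw [ha2]; exact pow_pos hp.pos _) h6
    (by rw [ha2]; exact dvd_pow_self p ha0)
  omega

end Pool.Agent.Helper29.LS
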