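import Pool.Agent.Helper29.LS.Newton

namespace Pool.Agent.Helper29.LS

open Finset

lemma sum_le_prod {ι : Type*} (s : Multiset ι) (g : ι → ℝ) (hg : ∀ i, 1 ≤ g i) :
    (s.map g).sum + 1 ≤ s.card + (s.map g).prod ∧ 1 ≤ (s.map g).prod := by
  induction s using Multiset.induction_on with
  | empty => simp
  | cons a s ih =>
    obtain ⟨h1, h2⟩ := ih
    have ha := hg a
    simp only [Multiset.map_cons, Multiset.sum_cons, Multiset.prod_cons, Multiset.card_cons]
    push_cast
    constructor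
    · nlinarith
    · nlinarith

lemma psum_bound (s : Multiset ℂ) (j : ℕ) : ‖(s.map fun b => b ^ j).sum‖ ≤
    (s.card : ℝ) - 1 + ((s.map fun b => max 1 ‖b‖).prod) ^ j := by
  have h1 := (sum_le_prod s (fun b : ℂ => (max 1 ‖b‖) ^ j)
    (fun b => one_le_pow₀ (le_max_left _ _))).1
  have h2 : ‖(s.map fun b => b ^ j).sum‖ ≤ (s.map fun b : ℂ => (max 1 ‖b‖) ^ j).sum := by
    refine (norm_multiset_sum_le _).trans ?_
    rw [Multiset.map_map]
    apply Multiset.sum_map_le_sum_map
    intro b _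
    simp only [Function.comp_apply, norm_pow]
    exact pow_le_pow_left₀ (norm_nonneg _) (le_max_right _ _) j
  rw [Multiset.prod_map_pow] at h1
  linarith

lemma num_quartic {y : ℝ} (hy : 2 ≤ y) : ((y - 1) / (y ^ 2 + 1) + 2 / 3) * (y ^ 2 - 2 + y) < y ^ 2 := by
  have h1 : 0 < y ^ 2 + 1 := by positivity
  have h2 : ((y - 1) / (y ^ 2 + 1) + 2 / 3) * (y ^ 2 - 2 + y) =
      (2 * y ^ 4 + 5 * y ^ 3 - 2 * y ^ 2 - 7 * y + 2) / (3 * (y ^ 2 + 1)) := by
    field_simp
    ring
  rw [h2, div_lt_iff₀ (by positivity)]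
  obtain ⟨z, hz, rfl⟩ : ∃ z : ℝ, 0 ≤ z ∧ y = z + 2 := ⟨y - 2, by linarith, by ring⟩
  nlinarith [sq_nonneg (z ^ 2 - 1 / 2), mul_nonneg hz (sq_nonneg (z - 1 / 2)),
    sq_nonneg (z - 1), sq_nonneg z]

/-- the lower bound for `k` when `M ^ k ≥ 2` -/
lemma k_bound {M y : ℝ} {N k q : ℕ} (hM1 : 1 ≤ M) (hk : 1 ≤ k) (hkN : k ≤ N) (hq : N + 2 ≤ q)
    (hMq : M ^ q ≤ y) (h2 : 2 ≤ M ^ k) : 1 + ((N : ℝ) + 2) / k ≤ y := by
  have hk0 : (0 : ℝ) < k := by exact_mod_cast hk
  have hx : 1 ≤ ((N : ℝ) + 2) / k := by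
    rw [le_div_iff₀ hk0]
    have : (k : ℝ) ≤ N := by exact_mod_cast hkN
    linarith
  have h3 := one_add_mul_self_le_rpow_one_add (s := (1 : ℝ)) (by norm_num) hx
  rw [mul_one] at h3
  refine h3.trans ?_
  calc (1 + 1 : ℝ) ^ (((N : ℝ) + 2) / k) ≤ (M ^ k) ^ (((N : ℝ) + 2) / k) := by
        apply Real.rpow_le_rpow (by norm_num) (by linarith)
        positivity
    _ = M ^ ((N : ℝ) + 2) := by
        rw [← Real.rpow_natCast, ← Real.rpow_mul (by linarith)]
        congr 1
        field_simp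
    _ = M ^ (N + 2) := by
        rw [← Real.rpow_natCast]
        push_cast
        rfl
    _ ≤ M ^ q := pow_le_pow_right₀ hM1 hq
    _ ≤ y := hMq

lemma int_close {p N : ℕ} (hpN : N + 2 ≤ p) {a b : ℤ} (hdvd : (p : ℤ) ∣ a - b)
    (ha : |(a : ℝ)| < N + 1) (hb : |(b : ℝ)| ≤ 1) : a = b := by
  have h1 : |a - b| < (p : ℤ) := by
    have h2 : |((a - b : ℤ) : ℝ)| < (p : ℝ) := by
      push_cast
      have h3 : |(a : ℝ) - b| ≤ |(a : ℝ)| + |(b : ℝ)| := abs_sub _ _
      have h4 : (N : ℝ) + 2 ≤ p := by exact_mod_cast hpN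
      linarith
    exact_mod_cast h2
  have h5 := Int.eq_zero_of_abs_lt_dvd hdvd h1
  omega

theorem top_induction {N p q : ℕ} {φ e : ℕ → ℤ} (s : Multiset ℂ) (hcard : s.card = N)
    (hpN : N + 2 ≤ p) (hq : p ≤ q)
    (hM : ((s.map fun b => max 1 ‖b‖).prod ^ q) ^ 2 ≤ N + 1)
    (hφ : ∀ n ≤ N, PowerSeries.coeff n (Fs s) = (φ n : ℂ))
    (he : ∀ n ≤ N, ∑ i ∈ range (n + 1), e i = 0 ∨ ∑ i ∈ range (n + 1), e i = 1)
    (h0 : φ 0 = e 0) (hmod : ∀ n ≤ N, (p : ℤ) ∣ φ n - e n) : ∀ n ≤ N, φ n = e n := by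
  set M := (s.map fun b => max 1 ‖b‖).prod with hMdef
  have hM1 : 1 ≤ M := (sum_le_prod s (fun b : ℂ => max 1 ‖b‖) (fun b => le_max_left _ _)).2
  set y : ℝ := √((N : ℝ) + 1) with hy
  have hy2 : y ^ 2 = N + 1 := Real.sq_sqrt (by positivity)
  have hMq : M ^ q ≤ y := Real.le_sqrt_of_sq_le hM
  set P : ℕ → ℂ := fun j => (s.map fun b => b ^ j).sum with hP
  have hPb : ∀ j, ‖P j‖ ≤ (N : ℝ) - 1 + M ^ j := by
    intro j
    have := psum_bound s j
    rw [hcard] at this
    exact this
  set h : ℕ → ℤ := fun n => ∑ i ∈ range (n + 1), e i with hh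
  have hsucc : ∀ n, h (n + 1) = h n + e (n + 1) := fun n => Finset.sum_range_succ _ _
  have he1 : ∀ n ≤ N, |(e n : ℝ)| ≤ 1 := by
    intro n hn
    have h1 : |e n| ≤ 1 := by
      rcases n with _ | n
      · have h2 := he 0 hn
        simp only [zero_add, Finset.sum_range_one] at h2
        rcases h2 with h2 | h2 <;> rw [h2] <;> simp
      · have h2 := he n (by omega)
        have h3 := he (n + 1) hn
        have h4 := hsucc n
        simp only [hh] at h4
        rcases h2 with h2 | h2 <;> rcases h3 with h3 | h3 <;> rw [h2, h3] at h4 <;>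
          rw [abs_le] <;> constructor <;> linarith
    exact_mod_cast h1
  intro n
  induction n using Nat.strong_induction_on with
  | _ n ih =>
  intro hn
  rcases n with _ | n
  · exact h0
  have ih' : ∀ i ≤ n, φ i = e i := fun i hi => ih i (by omega) (by omega)
  have hF : ∀ i ≤ n, PowerSeries.coeff i (Fs s) = (e i : ℂ) := fun i hi => by
    rw [hφ i (by omega), ih' i hi]
  have hH : ∀ i ≤ n, PowerSeries.coeff i (Hs s) = (h i : ℂ) := by
    intro i hi
    rw [coeff_Hs]
    simp only [hh]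
    push_cast
    apply Finset.sum_congr rfl
    intro l hl
    rw [mem_range] at hl
    exact hF l (by omega)
  have hk0 : (0 : ℝ) < (n : ℝ) + 1 := by positivity
  have hMmono : ∀ j ≤ n + 1, M ^ j ≤ M ^ (n + 1) := fun j hj => pow_le_pow_right₀ hM1 hj
  have hnorm : ‖((n : ℂ) + 1)‖ = (n : ℝ) + 1 := by
    have : ((n : ℂ) + 1) = ((n + 1 : ℕ) : ℂ) := by push_cast; rfl
    rw [this, Complex.norm_natCast]
    push_cast
    rfl
  have hφn : ∀ a : ℤ, ‖(a : ℂ)‖ = |(a : ℝ)| := fun a => Complex.norm_intCast a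
  by_cases hcase : M ^ (n + 1) < 2
  · -- crude bound
    have h1 := congrArg norm (coeff_rec s n)
    rw [norm_mul, hnorm, norm_neg, hφ (n + 1) hn, hφn] at h1
    have h2 : ‖∑ x ∈ antidiagonal n, PowerSeries.coeff x.1 (Fs s) *
        (s.map fun b => b ^ (x.2 + 1)).sum‖ ≤ ((n : ℝ) + 1) * (N - 1 + M ^ (n + 1)) := by
      refine (norm_sum_le _ _).trans ?_
      have h3 : ∀ x ∈ antidiagonal n, ‖PowerSeries.coeff x.1 (Fs s) *
          (s.map fun b => b ^ (x.2 + 1)).sum‖ ≤ N - 1 + M ^ (n + 1) := by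
        intro x hx
        rw [HasAntidiagonal.mem_antidiagonal] at hx
        rw [norm_mul, hF x.1 (by omega), hφn]
        have h4 := he1 x.1 (by omega)
        have h5 := hPb (x.2 + 1)
        have h6 := hMmono (x.2 + 1) (by omega)
        simp only [hP] at h5
        calc _ ≤ 1 * ‖(s.map fun b => b ^ (x.2 + 1)).sum‖ :=
              mul_le_mul_of_nonneg_right h4 (norm_nonneg _)
          _ ≤ _ := by linarith
      refine (Finset.sum_le_sum h3).trans ?_
      rw [Finset.sum_const, Nat.card_antidiagonal, nsmul_eq_mul]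
      push_cast
      exact le_rfl
    rw [← h1] at h2
    have h3 : |(φ (n + 1) : ℝ)| ≤ N - 1 + M ^ (n + 1) := le_of_mul_le_mul_left h2 hk0
    exact int_close hpN (hmod _ hn) (by linarith) (he1 _ hn)
  · rw [not_lt] at hcase
    have hMy : M ^ (n + 1) ≤ y := (pow_le_pow_right₀ hM1 (by omega)).trans hMq
    have hkb := k_bound (k := n + 1) hM1 (by omega) hn (by omega : N + 2 ≤ q) hMq hcase
    have hkb2 : (1 : ℝ) ≤ ((N : ℝ) + 2) / ((n + 1 : ℕ) : ℝ) := by
      rw [le_div_iff₀ (by exact_mod_cast Nat.succ_pos n)]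
      have : ((n + 1 : ℕ) : ℝ) ≤ N := by exact_mod_cast hn
      linarith
    have hy2' : 2 ≤ y := by linarith
    set A : ℝ := y ^ 2 - 2 + y with hA
    have hAN : A = N - 1 + y := by rw [hA, hy2]; ring
    have hPA : ∀ j ≤ n + 1, ‖P j‖ ≤ A := by
      intro j hj
      have h5 := hPb j
      have h6 := hMmono j hj
      linarith
    have hApos : 0 ≤ A := (norm_nonneg _).trans (hPA 0 (Nat.zero_le _))
    set σ : ℝ := ∑ x ∈ antidiagonal n, (h x.1 : ℝ) with hσ
    have hh01 : ∀ i ≤ n, 0 ≤ (h i : ℝ) ∧ (h i : ℝ) ≤ 1 := by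
      intro i hi
      rcases he i (by omega) with h1 | h1 <;> simp only [hh] <;> rw [h1] <;> norm_num
    have hsum1 : ∑ x ∈ antidiagonal n, (1 - (h x.1 : ℝ)) = n + 1 - σ := by
      rw [Finset.sum_sub_distrib, Finset.sum_const, Nat.card_antidiagonal, nsmul_eq_mul, mul_one]
      push_cast
      rfl
    by_cases hs : 3 * σ ≤ 2 * (n + 1)
    · have h1 := congrArg norm (coeff_Hs_rec s n)
      have hHn : PowerSeries.coeff (n + 1) (Hs s) = ((h n + φ (n + 1) : ℤ) : ℂ) := by
        rw [coeff_Hs, Finset.sum_range_succ, ← coeff_Hs, hH n le_rfl, hφ (n + 1) hn]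
        push_cast
        rfl
      rw [norm_mul, hnorm, hHn, hφn] at h1
      have h2 : ‖∑ x ∈ antidiagonal n, PowerSeries.coeff x.1 (Hs s) *
          (1 - (s.map fun b => b ^ (x.2 + 1)).sum)‖ ≤ σ * (1 + A) := by
        refine (norm_sum_le _ _).trans ?_
        rw [hσ, Finset.sum_mul]
        apply Finset.sum_le_sum
        intro x hx
        rw [HasAntidiagonal.mem_antidiagonal] at hx
        rw [norm_mul, hH x.1 (by omega), hφn, abs_of_nonneg (hh01 x.1 (by omega)).1]
        apply mul_le_mul_of_nonneg_left _ (hh01 x.1 (by omega)).1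
        have h5 := hPA (x.2 + 1) (by omega)
        simp only [hP] at h5
        calc _ ≤ ‖(1 : ℂ)‖ + ‖(s.map fun b => b ^ (x.2 + 1)).sum‖ := norm_sub_le _ _
          _ ≤ _ := by rw [norm_one]; linarith
      rw [← h1] at h2
      have h3 : ((n : ℝ) + 1) * |((h n + φ (n + 1) : ℤ) : ℝ)| ≤
          ((n : ℝ) + 1) * (2 / 3 * (1 + A)) := by
        refine h2.trans ?_
        have : σ ≤ 2 / 3 * (n + 1) := by linarith
        calc σ * (1 + A) ≤ 2 / 3 * (n + 1) * (1 + A) :=
              mul_le_mul_of_nonneg_right this (by linarith)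
          _ = _ := by ring
      have h4 := le_of_mul_le_mul_left h3 hk0
      have h5 : 2 / 3 * (1 + A) < (N : ℝ) + 1 := by
        rw [← hy2, hA]
        nlinarith [sq_nonneg (y - 1)]
      have h6 : h n + φ (n + 1) = h (n + 1) := by
        apply int_close hpN _ (lt_of_le_of_lt h4 h5)
        · have := he (n + 1) hn
          simp only [hh]
          rcases this with h7 | h7 <;> rw [h7] <;> norm_num
        · rw [hsucc]
          have := hmod (n + 1) hn
          have h8 : h n + φ (n + 1) - (h n + e (n + 1)) = φ (n + 1) - e (n + 1) := by ring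
          rw [h8]
          exact this
      rw [hsucc] at h6
      linarith
    · rw [not_le] at hs
      have h1 := congrArg norm (coeff_G_rec s n)
      rw [norm_mul, hnorm, hφ (n + 1) hn, hφn] at h1
      have h2 : ‖-(s.map fun b => b ^ (n + 1)).sum + ∑ x ∈ antidiagonal n,
          (1 - PowerSeries.coeff x.1 (Hs s)) * ((s.map fun b => b ^ (x.2 + 1)).sum -
            if x.2 = 0 then 0 else (s.map fun b => b ^ x.2).sum)‖ ≤
          A + (n + 1 - σ) * (2 * A) := by
        refine (norm_add_le _ _).trans (add_le_add ?_ ?_)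
        · rw [norm_neg]
          exact hPA (n + 1) le_rfl
        · refine (norm_sum_le _ _).trans ?_
          rw [← hsum1, Finset.sum_mul]
          apply Finset.sum_le_sum
          intro x hx
          rw [HasAntidiagonal.mem_antidiagonal] at hx
          have h3 : (1 : ℂ) - PowerSeries.coeff x.1 (Hs s) = ((1 - h x.1 : ℤ) : ℂ) := by
            rw [hH x.1 (by omega)]
            push_cast
            rfl
          have h4 := hh01 x.1 (by omega)
          have h4' : |((1 - h x.1 : ℤ) : ℝ)| = 1 - (h x.1 : ℝ) := by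
            push_cast
            rw [abs_of_nonneg (by linarith)]
          rw [norm_mul, h3, hφn, h4']
          apply mul_le_mul_of_nonneg_left _ (by linarith)
          have h5 := hPA (x.2 + 1) (by omega)
          have h6 : ‖(if x.2 = 0 then 0 else (s.map fun b => b ^ x.2).sum : ℂ)‖ ≤ A := by
            split_ifs with h7
            · rw [norm_zero]; exact hApos
            · exact hPA x.2 (by omega)
          simp only [hP] at h5
          calc _ ≤ ‖(s.map fun b => b ^ (x.2 + 1)).sum‖ +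
                ‖(if x.2 = 0 then 0 else (s.map fun b => b ^ x.2).sum : ℂ)‖ := norm_sub_le _ _
            _ ≤ _ := by linarith
      rw [← h1] at h2
      have h3 : ((n : ℝ) + 1) * |(φ (n + 1) : ℝ)| ≤
          ((n : ℝ) + 1) * (((y - 1) / (y ^ 2 + 1) + 2 / 3) * A) := by
        refine h2.trans ?_
        have h4 : (n : ℝ) + 1 - σ ≤ (n + 1) / 3 := by linarith
        have h5 : (n + 1 - σ) * (2 * A) ≤ (n + 1) / 3 * (2 * A) :=
          mul_le_mul_of_nonneg_right h4 (by linarith)
        have h6 : 1 ≤ ((n : ℝ) + 1) * ((y - 1) / (y ^ 2 + 1)) := by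
          have h7 : y ^ 2 + 1 = N + 2 := by rw [hy2]; ring
          rw [h7]
          have h8 : ((N : ℝ) + 2) / ((n : ℝ) + 1) ≤ y - 1 := by
            have := hkb
            push_cast at this
            linarith
          rw [div_le_iff₀ hk0] at h8
          rw [← mul_div_assoc, le_div_iff₀ (by positivity)]
          linarith
        have h9 : A ≤ ((n : ℝ) + 1) * ((y - 1) / (y ^ 2 + 1)) * A :=
          le_mul_of_one_le_left hApos h6
        calc A + (n + 1 - σ) * (2 * A) ≤
              ((n : ℝ) + 1) * ((y - 1) / (y ^ 2 + 1)) * A + (n + 1) / 3 * (2 * A) := by linarith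
          _ = _ := by ring
      have h4 := le_of_mul_le_mul_left h3 hk0
      have h5 := num_quartic hy2'
      rw [← hA] at h5
      exact int_close hpN (hmod _ hn) (by linarith) (he1 _ hn)

end Pool.Agent.Helper29.LS
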