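import Pool.Agent.Helper29.LS.Large2
import Pool.Agent.Helper29.LS.Top

namespace Pool.Agent.Helper29.LS

open Polynomial IntermediateField

variable {p r lam : ℕ} {D f E : ℤ[X]}

lemma top_ps {E : ℤ[X]} (hE : OSType E) {N : ℕ} (hN : E.natDegree = N) {n : ℕ} (hn : n ≤ N) :
    ∑ i ∈ Finset.range (n + 1), E.coeff (N - i) = 0 ∨
      ∑ i ∈ Finset.range (n + 1), E.coeff (N - i) = 1 := by
  have h1 : ∀ n ≤ N, ∑ i ∈ Finset.range (n + 1), E.coeff (N - i) +
      ∑ i ∈ Finset.range (N - n), E.coeff i = 1 := by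
    intro n
    induction n with
    | zero =>
      intro _
      have h2 := ps_of_le E (m := N) hN.le
      rw [hE.2.1] at h2
      unfold ps at h2
      rw [Finset.sum_range_succ] at h2
      rw [zero_add, Finset.sum_range_one, Nat.sub_zero]
      linarith
    | succ n ih =>
      intro hn
      have h2 := ih (by omega)
      rw [Finset.sum_range_succ (fun i => E.coeff (N - i)) (n + 1)]
      have h3 : N - n = (N - (n + 1)) + 1 := by omega
      rw [h3, Finset.sum_range_succ (fun i => E.coeff i) (N - (n + 1))] at h2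
      linarith
  have h2 := h1 n hn
  rcases Nat.eq_zero_or_pos (N - n) with h3 | h3
  · rw [h3, Finset.sum_range_zero, add_zero] at h2
    exact Or.inr h2
  · have h4 := hE.2.2 (N - n - 1)
    unfold ps at h4
    rw [Nat.sub_add_cancel h3] at h4
    rcases h4 with h4 | h4 <;> rw [h4] at h2
    · right; linarith
    · left; linarith

theorem large4 (hp : p.Prime) (hr : 1 ≤ r) (hlam : 1 ≤ lam) (hf : f.Monic) (hE : OSType E)
    (hD0 : D.coeff 0 = 1) (hdeg : E.natDegree = f.natDegree)
    (hpN : f.natDegree + 1 < p) (hdvd : f ∣ D)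
    (hid : D * (1 - X ^ lam) * (1 - X ^ p ^ r) =
      E.comp (X ^ p ^ r) * (1 - X ^ (lam * p ^ r)) * (1 - X))
    (hmod : f.map (Int.castRingHom (ZMod p)) = E.map (Int.castRingHom (ZMod p))) : f = E := by
  classical
  have hq : 0 < p ^ r := pow_pos hp.pos _
  have hD : D ≠ 0 := by
    rintro rfl
    simp at hD0
  have hEm : E.Monic := hE.monic
  have hne0 : ∀ z : ℂ, aeval z f = 0 → z ≠ 0 := by
    rintro z hz rfl
    obtain ⟨g, hg⟩ := hdvd
    have h1 : (aeval (0 : ℂ)) f = ((f.coeff 0 : ℤ) : ℂ) := by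
      rw [← Polynomial.coeff_zero_eq_aeval_zero']
      simp
    rw [h1] at hz
    have h2 : f.coeff 0 = 0 := by exact_mod_cast hz
    rw [hg, mul_coeff_zero, h2, zero_mul] at hD0
    exact zero_ne_one hD0
  have hmult : ∀ z : ℂ, aeval z f = 0 →
      (cx f).rootMultiplicity z ≤ (cx E).rootMultiplicity (z ^ p ^ r) := fun z hz =>
    mult_le hp hr hlam hf hEm hD hpN hdvd hid hz (hne0 z hz)
  have hpos : ∀ z : ℂ, aeval z f = 0 → 1 ≤ (cx f).rootMultiplicity z := by
    intro z hz
    rw [Nat.succ_le_iff, rootMultiplicity_pos (cx_ne hf.ne_zero), IsRoot, cx_eval]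
    exact hz
  have himg : ∀ z : ℂ, aeval z f = 0 → aeval (z ^ p ^ r) E = 0 := by
    intro z hz
    have h1 := (hpos z hz).trans (hmult z hz)
    rw [Nat.succ_le_iff, rootMultiplicity_pos (cx_ne hEm.ne_zero), IsRoot, cx_eval] at h1
    exact h1
  have hdgr : ∀ z : ℂ, aeval z f = 0 → dg z < p - 1 := by
    intro z hz
    have := dg_le_root hf hz
    omega
  set Rf := (cx f).roots.toFinset with hRf
  set RE := (cx E).roots.toFinset with hRE
  have hmemf : ∀ z, z ∈ Rf ↔ aeval z f = 0 := fun z => mem_roots_cx hf.ne_zero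
  have hmemE : ∀ z, z ∈ RE ↔ aeval z E = 0 := fun z => mem_roots_cx hEm.ne_zero
  have hinj : Set.InjOn (fun z : ℂ => z ^ p ^ r) (Rf : Set ℂ) := by
    intro x hx y hy h
    have hx' := (hmemf x).1 hx
    have hy' := (hmemf y).1 hy
    exact pow_inj hp r (int_of_root hf hx').tower_top (hne0 _ hx')
      (hdgr _ hx') (int_of_root hf hy').tower_top (hne0 _ hy') (hdgr _ hy') h
  have hsub : Rf.image (fun z : ℂ => z ^ p ^ r) ⊆ RE := by
    intro a ha
    rw [Finset.mem_image] at ha
    obtain ⟨z, hz, rfl⟩ := ha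
    exact (hmemE _).2 (himg z ((hmemf z).1 hz))
  set N := f.natDegree with hNdef
  have hMle : (((cx f).roots.map fun b => max 1 ‖b‖).prod) ^ p ^ r ≤
      ((cx E).roots.map fun b => max 1 ‖b‖).prod := by
    rw [Finset.prod_multiset_map_count, Finset.prod_multiset_map_count, ← Finset.prod_pow]
    have h1 : ∀ z ∈ Rf, (max 1 ‖z‖ ^ Multiset.count z (cx f).roots) ^ p ^ r ≤
        max 1 ‖z ^ p ^ r‖ ^ Multiset.count (z ^ p ^ r) (cx E).roots := by
      intro z hz
      have h2 : (max 1 ‖z‖ ^ Multiset.count z (cx f).roots) ^ p ^ r =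
          (max 1 ‖z ^ p ^ r‖) ^ Multiset.count z (cx f).roots := by
        rw [← pow_mul, mul_comm, pow_mul, max_one_pow (norm_nonneg _), norm_pow]
      rw [h2]
      apply pow_le_pow_right₀ (le_max_left _ _)
      rw [count_roots, count_roots]
      exact hmult z ((hmemf z).1 hz)
    calc _ ≤ ∏ z ∈ Rf, max 1 ‖z ^ p ^ r‖ ^ Multiset.count (z ^ p ^ r) (cx E).roots :=
          Finset.prod_le_prod (fun z _ => by positivity) h1
      _ = ∏ a ∈ Rf.image (fun z : ℂ => z ^ p ^ r), max 1 ‖a‖ ^ Multiset.count a (cx E).roots := by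
          rw [Finset.prod_image]
          intro x hx y hy h
          exact hinj hx hy h
      _ ≤ _ := by
          rw [← Finset.prod_sdiff hsub]
          have h3 : 1 ≤ ∏ a ∈ RE \ Rf.image (fun z : ℂ => z ^ p ^ r),
              max 1 ‖a‖ ^ Multiset.count a (cx E).roots := by
            have := Finset.prod_le_prod (s := RE \ Rf.image (fun z : ℂ => z ^ p ^ r))
              (f := fun _ => (1 : ℝ)) (g := fun a => max 1 ‖a‖ ^ Multiset.count a (cx E).roots)
              (fun i _ => zero_le_one) (fun i _ => one_le_pow₀ (le_max_left _ _))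
            simpa using this
          have h4 : 0 ≤ ∏ a ∈ Rf.image (fun z : ℂ => z ^ p ^ r),
              max 1 ‖a‖ ^ Multiset.count a (cx E).roots :=
            Finset.prod_nonneg fun i _ => by positivity
          exact le_mul_of_one_le_left h4 h3
  have hM0 : 0 ≤ ((cx f).roots.map fun b => max 1 ‖b‖).prod := by
    have := (sum_le_prod (cx f).roots (fun b : ℂ => max 1 ‖b‖) (fun b => le_max_left _ _)).2
    linarith
  have hM : ((((cx f).roots.map fun b => max 1 ‖b‖).prod) ^ p ^ r) ^ 2 ≤ (N : ℝ) + 1 :=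
    (pow_le_pow_left₀ (pow_nonneg hM0 _) hMle 2).trans (mahler_bound hE hdeg)
  have hcf : (cx f).Monic := hf.map _
  have hndf : (cx f).natDegree = N := by
    unfold cx
    exact hf.natDegree_map _
  have hcard : (cx f).roots.card = N := by
    rw [splits_iff_card_roots.1 (IsAlgClosed.splits (cx f)), hndf]
  have hppr : p ≤ p ^ r := Nat.le_self_pow (by omega) p
  have key := top_induction (φ := fun n => f.coeff (N - n)) (e := fun n => E.coeff (N - n))
    (cx f).roots hcard (by omega : N + 2 ≤ p) hppr hM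
    (fun n hn => by
      rw [coeff_Fs hcf (by rw [hndf]; exact hn), hndf]
      unfold cx
      rw [coeff_map]
      simp)
    (fun n hn => top_ps hE hdeg hn)
    (by
      simp only [Nat.sub_zero]
      have h1 : f.coeff N = 1 := hf.coeff_natDegree
      have h2 : E.coeff N = 1 := by
        have := hEm.coeff_natDegree
        rwa [hdeg] at this
      rw [h1, h2])
    (fun n _ => by
      have h1 := congrArg (fun g => g.coeff (N - n)) hmod
      simp only [coeff_map, eq_intCast] at h1
      exact (ZMod.intCast_eq_intCast_iff_dvd_sub _ _ _).1 h1.symm)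
  ext i
  rcases Nat.lt_or_ge N i with hi | hi
  · rw [coeff_eq_zero_of_natDegree_lt hi, coeff_eq_zero_of_natDegree_lt (by rw [hdeg]; exact hi)]
  · have h1 : f.coeff (N - (N - i)) = E.coeff (N - (N - i)) := key (N - i) (Nat.sub_le _ _)
    rwa [Nat.sub_sub_self hi] at h1

end Pool.Agent.Helper29.LS
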