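import Pool.Agent.Helper29.LS.Norm

namespace Pool.Agent.Helper29.LS

open Polynomial Finset

lemma root_step {D E : ℤ[X]} {q lam : ℕ}
    (hid : D * (1 - X ^ lam) * (1 - X ^ q) = E.comp (X ^ q) * (1 - X ^ (lam * q)) * (1 - X))
    {z : ℂ} (hz : aeval z D = 0) : aeval (z ^ q) E = 0 ∨ z ^ (lam * q) = 1 ∨ z = 1 := by
  have h1 := congrArg (fun g => aeval z g) hid
  simp only [map_mul, map_sub, map_one, map_pow, aeval_X, hz, zero_mul, aeval_comp] at h1
  rcases mul_eq_zero.1 h1.symm with h2 | h2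
  · rcases mul_eq_zero.1 h2 with h3 | h3
    · exact Or.inl h3
    · exact Or.inr (Or.inl (sub_eq_zero.1 h3).symm)
  · exact Or.inr (Or.inr (sub_eq_zero.1 h2).symm)

lemma root_unity {D f : ℤ[X]} {q lam : ℕ} (hq : 2 ≤ q) (hlam : 1 ≤ lam)
    (hid : D * (1 - X ^ lam) * (1 - X ^ q) = f.comp (X ^ q) * (1 - X ^ (lam * q)) * (1 - X))
    (hdvd : f ∣ D) (hD0 : D.coeff 0 = 1) {z : ℂ} (hz : aeval z D = 0) :
    ∃ k : ℕ, 0 < k ∧ z ^ k = 1 := by
  by_contra hcon
  push Not at hcon
  have hz0 : z ≠ 0 := by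
    rintro rfl
    have h1 : (aeval (0 : ℂ)) D = ((D.coeff 0 : ℤ) : ℂ) := by
      rw [← Polynomial.coeff_zero_eq_aeval_zero']
      simp
    rw [h1, hD0] at hz
    norm_num at hz
  have hroot : ∀ n : ℕ, aeval (z ^ q ^ n) D = 0 := by
    intro n
    induction n with
    | zero => simpa using hz
    | succ n ih =>
      rcases root_step hid ih with h1 | h1 | h1
      · obtain ⟨g, rfl⟩ := hdvd
        rw [pow_succ, pow_mul, map_mul, h1, zero_mul]
      · exfalso
        apply hcon (q ^ n * (lam * q)) (by positivity)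
        rw [pow_mul, h1]
      · exfalso
        exact hcon (q ^ n) (by positivity) h1
  have hD : D ≠ 0 := by
    rintro rfl
    simp at hD0
  have hfin : (D.rootSet ℂ).Finite := Polynomial.rootSet_finite D ℂ
  have hmaps : ∀ n, z ^ q ^ n ∈ D.rootSet ℂ := by
    intro n
    rw [Polynomial.mem_rootSet]
    exact ⟨hD, hroot n⟩
  have hninj : ¬ Function.Injective (fun n : ℕ => z ^ q ^ n) := by
    intro hinj
    exact Set.infinite_of_injective_forall_mem hinj hmaps hfin
  rw [Function.Injective] at hninj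
  push Not at hninj
  obtain ⟨a, b, hab, hne⟩ := hninj
  have key : ∀ a b : ℕ, a < b → z ^ q ^ a ≠ z ^ q ^ b := by
    intro a b hlt hab
    have h1 : q ^ a < q ^ b := Nat.pow_lt_pow_right (by omega) hlt
    apply hcon (q ^ b - q ^ a) (by omega)
    have h2 : z ^ q ^ a * z ^ (q ^ b - q ^ a) = z ^ q ^ a * 1 := by
      rw [← pow_add, Nat.add_sub_cancel' h1.le, mul_one, hab]
    exact mul_left_cancel₀ (pow_ne_zero _ hz0) h2
  rcases lt_or_gt_of_ne hne with h | h
  · exact key a b h hab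
  · exact key b a h hab.symm

end Pool.Agent.Helper29.LS
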