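import Pool.Agent.Helper29.LS.Burau
import Pool.Agent.Helper29.LS.Roots
import Pool.Agent.Helper29.LS.Large4

namespace Pool.Agent.Helper29.LS

open Polynomial Finset

theorem cable_form {p r lam : ℕ} {D f : ℤ[X]} (hp : p.Prime) (hr : 1 ≤ r) (hlam : 1 ≤ lam)
    (hD : OSType D) (hf1 : f.eval 1 = 1) (hM : Murasugi p (p ^ r) lam D f) :
    Nat.Coprime (p ^ r) lam ∧ ∃ E : ℤ[X], OSType E ∧ E.natDegree = f.natDegree ∧
      E.map (Int.castRingHom (ZMod p)) = f.map (Int.castRingHom (ZMod p)) ∧
      D * (1 - X ^ lam) * (1 - X ^ p ^ r) =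
        E.comp (X ^ p ^ r) * (1 - X ^ (lam * p ^ r)) * (1 - X) ∧
      (OSType f ∨ f.natDegree + 1 < p →
        f = E ∧ ∀ z : ℂ, aeval z D = 0 → ∃ k : ℕ, 0 < k ∧ z ^ k = 1) := by
  have : Fact p.Prime := ⟨hp⟩
  obtain ⟨hc, hcong⟩ := Murasugi.normal hr hlam hD.1 hD.2.1 hf1 hM
  have hq : 2 ≤ p ^ r := Nat.succ_le_of_lt (Nat.one_lt_pow (by omega) hp.one_lt)
  have hdvd := hM.dvd
  have hE : OSType (EE (p ^ r) D) := OSType_EE (by omega) hD
  have hid := ident hD.2.2 hcong hc
  have hmod := EE_map hlam hD.2.2 hcong hc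
  -- the leading coefficient of `f` is a unit
  have hlc : f.leadingCoeff = 1 ∨ f.leadingCoeff = -1 := by
    obtain ⟨g, hg⟩ := hdvd
    have h1 : f.leadingCoeff * g.leadingCoeff = 1 := by
      rw [← leadingCoeff_mul, ← hg]
      exact hD.monic
    exact Int.eq_one_or_neg_one_of_mul_eq_one h1
  have hlcp : ((f.leadingCoeff : ℤ) : ZMod p) ≠ 0 := by
    rcases hlc with h | h <;> rw [h] <;> simp
  have hdegf : (f.map (Int.castRingHom (ZMod p))).natDegree = f.natDegree := by
    apply natDegree_map_of_leadingCoeff_ne_zero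
    simpa using hlcp
  have hdegE : ((EE (p ^ r) D).map (Int.castRingHom (ZMod p))).natDegree =
      (EE (p ^ r) D).natDegree := by
    apply natDegree_map_of_leadingCoeff_ne_zero
    rw [hE.monic.leadingCoeff]
    simp
  have hdeg : (EE (p ^ r) D).natDegree = f.natDegree := by
    rw [← hdegE, hmod, hdegf]
  refine ⟨hc, EE (p ^ r) D, hE, hdeg, hmod, hid, ?_⟩
  intro hcase
  have hfE : f = EE (p ^ r) D := by
    rcases hcase with hf | hbig
    · exact (eq_of_OSType_of_map (p := p) hE hf hmod).symm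
    · rcases Nat.eq_zero_or_pos f.natDegree with h0 | hN
      · have hEdeg : (EE (p ^ r) D).natDegree = 0 := by rw [hdeg, h0]
        rw [eq_C_of_natDegree_eq_zero hEdeg, hE.1, eq_C_of_natDegree_eq_zero h0]
        rw [eq_C_of_natDegree_eq_zero h0, eval_C] at hf1
        rw [hf1]
      · have hp3 : p ≠ 2 := by omega
        have hfm : f.Monic := by
          rcases hlc with h | h
          · exact h
          · exfalso
            have h1 : (f.map (Int.castRingHom (ZMod p))).leadingCoeff = -1 := by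
              rw [leadingCoeff, hdegf, coeff_map, ← leadingCoeff, h]
              simp
            have h2 : ((EE (p ^ r) D).map (Int.castRingHom (ZMod p))).leadingCoeff = 1 := by
              rw [leadingCoeff, hdegE, coeff_map, ← leadingCoeff, hE.monic.leadingCoeff]
              simp
            rw [hmod, h1] at h2
            have : Fact (2 < p) := ⟨lt_of_le_of_ne hp.two_le (Ne.symm hp3)⟩
            exact ZMod.neg_one_ne_one h2
        exact large4 hp hr hlam hfm hE hD.1 hdeg hbig hdvd hid hmod.symm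
  refine ⟨hfE, fun z hz => ?_⟩
  refine root_unity hq hlam (f := f) ?_ hdvd hD.1 hz
  rw [hfE]
  exact hid

end Pool.Agent.Helper29.LS
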