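import Pool.Agent.Helper29.LS.Struct

namespace Pool.Agent.Helper29.LS

open Polynomial Finset

section

variable {p : ℕ} [Fact p.Prime] {r lam : ℕ} {D f : ℤ[X]}

lemma series_int (hD : ∀ m, ps D m = 0 ∨ ps D m = 1)
    (h : D.map (Int.castRingHom (ZMod p)) =
      (f.map (Int.castRingHom (ZMod p))) ^ p ^ r * (∑ k ∈ range lam, X ^ k) ^ (p ^ r - 1))
    (hc : Nat.Coprime (p ^ r) lam) :
    PowerSeries.mk (fun n => ps D n) * (1 - PowerSeries.X ^ lam) =
      PowerSeries.mk (fun n => if p ^ r ∣ n then ps (EE (p ^ r) D) (n / p ^ r) else 0) *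
        (1 - PowerSeries.X ^ (p ^ r * lam)) := by
  have hq : 0 < p ^ r := pow_pos (Fact.out : p.Prime).pos _
  ext n
  rw [coeff_mul_one_sub, coeff_mul_one_sub, ← ez_sub, ← ez_nat (ps D) n]
  by_cases hn : p ^ r ∣ n
  · obtain ⟨m, rfl⟩ := hn
    rw [stepB (f := f) hD h hc _ (by exact_mod_cast dvd_mul_right _ _)]
    have h2 : ((p ^ r * m : ℕ) : ℤ) - lam * (p ^ r : ℕ) = (p ^ r : ℕ) * ((m : ℤ) - lam) := by
      push_cast; ring
    rw [h2, ← ez_TT hq, ez_nat, ez_sub, if_pos (dvd_mul_right _ _), Nat.mul_div_cancel_left _ hq,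
      ps_EE hq]
    change TT (p ^ r) D m - _ = _
    congr 1
    by_cases hm : lam ≤ m
    · have h3 : p ^ r * m - p ^ r * lam = p ^ r * (m - lam) := (Nat.mul_sub _ _ _).symm
      rw [if_pos (Nat.mul_le_mul_left _ hm), if_pos hm, h3, if_pos (dvd_mul_right _ _),
        Nat.mul_div_cancel_left _ hq, ps_EE hq]
    · have h3 : ¬ p ^ r * lam ≤ p ^ r * m := fun h4 => hm (Nat.le_of_mul_le_mul_left h4 hq)
      rw [if_neg h3, if_neg hm]
  · rw [stepA (f := f) (lam := lam) hD h _ (by exact_mod_cast hn), sub_self, if_neg hn]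
    by_cases hm : p ^ r * lam ≤ n
    · rw [if_pos hm, if_neg, sub_zero]
      intro h4
      exact hn ((Nat.dvd_sub_iff_left hm (dvd_mul_right _ _)).1 h4)
    · rw [if_neg hm, sub_zero]

theorem ident (hD : ∀ m, ps D m = 0 ∨ ps D m = 1)
    (h : D.map (Int.castRingHom (ZMod p)) =
      (f.map (Int.castRingHom (ZMod p))) ^ p ^ r * (∑ k ∈ range lam, X ^ k) ^ (p ^ r - 1))
    (hc : Nat.Coprime (p ^ r) lam) :
    D * (1 - X ^ lam) * (1 - X ^ p ^ r) =
      (EE (p ^ r) D).comp (X ^ p ^ r) * (1 - X ^ (lam * p ^ r)) * (1 - X) := by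
  have hq : 0 < p ^ r := pow_pos (Fact.out : p.Prime).pos _
  have h1 := series_int hD h hc
  apply Polynomial.coe_injective ℤ
  rw [← expand_eq_comp_X_pow]
  simp only [Polynomial.coe_mul, Polynomial.coe_sub, Polynomial.coe_one, Polynomial.coe_pow,
    Polynomial.coe_X]
  rw [← one_sub_X_mul_ps, ← ps_ite _ hq, mul_comm lam]
  linear_combination (1 - PowerSeries.X) * (1 - PowerSeries.X ^ p ^ r) * h1

lemma EE_map (hlam : 1 ≤ lam) (hD : ∀ m, ps D m = 0 ∨ ps D m = 1)
    (h : D.map (Int.castRingHom (ZMod p)) =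
      (f.map (Int.castRingHom (ZMod p))) ^ p ^ r * (∑ k ∈ range lam, X ^ k) ^ (p ^ r - 1))
    (hc : Nat.Coprime (p ^ r) lam) :
    (EE (p ^ r) D).map (Int.castRingHom (ZMod p)) = f.map (Int.castRingHom (ZMod p)) := by
  have hq : 0 < p ^ r := pow_pos (Fact.out : p.Prime).pos _
  apply eq_of_ps
  intro m
  rw [ps_map, ps_map, ps_EE hq]
  exact stepC hlam hD h hc m

lemma eq_of_OSType_of_map {E F : ℤ[X]} (hE : OSType E) (hF : OSType F)
    (h : E.map (Int.castRingHom (ZMod p)) = F.map (Int.castRingHom (ZMod p))) : E = F := by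
  apply eq_of_ps
  intro m
  apply zmod_eq (p := p) (hE.2.2 m) (hF.2.2 m)
  have := congrArg (fun g => ps g m) h
  simp only [ps_map, eq_intCast] at this
  push_cast
  rw [this, sub_self]

end

/-- an OS type polynomial is monic -/
lemma OSType.monic {D : ℤ[X]} (hD : OSType D) : D.Monic := by
  obtain ⟨h0, h1, h2⟩ := hD
  unfold Polynomial.Monic Polynomial.leadingCoeff
  rcases hn : D.natDegree with _ | n
  · exact h0
  · have h3 := ps_of_le D (m := n + 1) (by omega)
    rw [ps_succ, h1] at h3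
    have h4 : D.coeff (n + 1) ≠ 0 := by
      rw [← hn]
      have : D ≠ 0 := by
        rintro rfl
        simp at h0
      exact leadingCoeff_ne_zero.2 this
    rcases h2 n with h5 | h5 <;> rw [h5] at h3
    · linarith
    · exfalso
      apply h4
      linarith

lemma OSType.coeff_abs {D : ℤ[X]} (hD : OSType D) (n : ℕ) : |D.coeff n| ≤ 1 := by
  obtain ⟨h0, h1, h2⟩ := hD
  rcases n with _ | n
  · rw [h0]; simp
  · have h3 := ps_succ D n
    rcases h2 n with h5 | h5 <;> rcases h2 (n + 1) with h6 | h6 <;> rw [h5, h6] at h3 <;>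
      rw [abs_le] <;> constructor <;> linarith

end Pool.Agent.Helper29.LS
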