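import Mathlib

namespace Pool.Agent.Helper29.LS

open Polynomial

lemma rm_one_sub {k : ℕ} (hk : 0 < k) (b : ℂ) :
    (1 - X ^ k : ℂ[X]).rootMultiplicity b = if b ^ k = 1 then 1 else 0 := by
  have hsep : (X ^ k - C (1 : ℂ)).Separable :=
    separable_X_pow_sub_C (1 : ℂ) (by exact_mod_cast hk.ne') one_ne_zero
  have hneg : (1 - X ^ k : ℂ[X]) = C (-1) * (X ^ k - C 1) := by
    simp
  have hne : (X ^ k - C (1 : ℂ)) ≠ 0 := X_pow_sub_C_ne_zero hk 1
  have h1 : (1 - X ^ k : ℂ[X]).rootMultiplicity b = (X ^ k - C (1 : ℂ)).rootMultiplicity b := by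
    rw [hneg, rootMultiplicity_mul (mul_ne_zero (by simp) hne), rootMultiplicity_C, zero_add]
  rw [h1]
  have hle := rootMultiplicity_le_one_of_separable hsep b
  by_cases hb : b ^ k = 1
  · rw [if_pos hb]
    have : 0 < (X ^ k - C (1 : ℂ)).rootMultiplicity b := by
      rw [rootMultiplicity_pos hne]
      simp [hb]
    omega
  · rw [if_neg hb]
    rw [rootMultiplicity_eq_zero_iff]
    intro h
    exfalso
    apply hb
    have : b ^ k - 1 = 0 := by simpa using h
    exact sub_eq_zero.1 this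

lemma rm_comp {E : ℂ[X]} (hE : E ≠ 0) {q : ℕ} (hq : 0 < q) {b : ℂ} (hb : b ≠ 0) :
    (E.comp (X ^ q)).rootMultiplicity b = E.rootMultiplicity (b ^ q) := by
  set m := E.rootMultiplicity (b ^ q) with hm
  obtain ⟨g, hg, hg2⟩ := exists_eq_pow_rootMultiplicity_mul_and_not_dvd E hE (b ^ q)
  rw [← hm] at hg
  have hg0 : g.eval (b ^ q) ≠ 0 := by
    intro h
    exact hg2 (dvd_iff_isRoot.2 h)
  have hgne : g ≠ 0 := by
    rintro rfl
    simp at hg0
  have hfac : (X ^ q - C (b ^ q) : ℂ[X]) =
      (X - C b) * ∑ i ∈ Finset.range q, X ^ i * (C b) ^ (q - 1 - i) := by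
    rw [map_pow, mul_comm]
    exact (Commute.geom_sum₂_mul (Commute.all _ _) q).symm
  set R : ℂ[X] := ∑ i ∈ Finset.range q, X ^ i * (C b) ^ (q - 1 - i) with hR
  have hReval : R.eval b ≠ 0 := by
    rw [hR, eval_finsetSum]
    have : ∀ i ∈ Finset.range q, (X ^ i * (C b) ^ (q - 1 - i)).eval b = b ^ (q - 1) := by
      intro i hi
      rw [Finset.mem_range] at hi
      rw [eval_mul, eval_pow, eval_X, eval_pow, eval_C, ← pow_add]
      congr 1
      omega
    rw [Finset.sum_congr rfl this, Finset.sum_const, Finset.card_range, nsmul_eq_mul]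
    exact mul_ne_zero (by exact_mod_cast hq.ne') (pow_ne_zero _ hb)
  have hRne : R ≠ 0 := by
    intro h
    rw [h] at hReval
    simp at hReval
  have hcomp : E.comp (X ^ q) = (X - C b) ^ m * (R ^ m * g.comp (X ^ q)) := by
    conv_lhs => rw [hg]
    rw [mul_comp, pow_comp, sub_comp, X_comp, C_comp, hfac, mul_pow]
    ring
  have hgc : (g.comp (X ^ q)).eval b ≠ 0 := by
    rw [eval_comp, eval_pow, eval_X]
    exact hg0
  have hne2 : R ^ m * g.comp (X ^ q) ≠ 0 := by
    intro h
    have := congrArg (fun t => t.eval b) h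
    rw [eval_mul, eval_pow, eval_zero] at this
    exact mul_ne_zero (pow_ne_zero _ hReval) hgc this
  have hz : (R ^ m * g.comp (X ^ q)).rootMultiplicity b = 0 := by
    rw [rootMultiplicity_eq_zero_iff]
    intro h
    exfalso
    rw [IsRoot, eval_mul, eval_pow] at h
    exact mul_ne_zero (pow_ne_zero _ hReval) hgc h
  rw [hcomp, rootMultiplicity_mul (mul_ne_zero (pow_ne_zero _ (X_sub_C_ne_zero b)) hne2), hz,
    rootMultiplicity_X_sub_C_pow, add_zero]

lemma rm_pow {g : ℂ[X]} (hg : g ≠ 0) (z : ℂ) (k : ℕ) :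
    (g ^ k).rootMultiplicity z = k * g.rootMultiplicity z := by
  induction k with
  | zero => simp
  | succ k ih =>
    rw [pow_succ, rootMultiplicity_mul (mul_ne_zero (pow_ne_zero _ hg) hg), ih]
    ring

lemma rm_conj {x y : ℂ} (hx : IsIntegral ℚ x) (h : minpoly ℚ x = minpoly ℚ y) (g : ℚ[X]) :
    (g.map (algebraMap ℚ ℂ)).rootMultiplicity x = (g.map (algebraMap ℚ ℂ)).rootMultiplicity y := by
  have hy : IsIntegral ℚ y := by
    by_contra hcon
    rw [minpoly.eq_zero hcon] at h
    exact minpoly.ne_zero hx h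
  by_cases hg : g = 0
  · simp [hg]
  have hirr : Irreducible (minpoly ℚ x) := minpoly.irreducible hx
  have hfin : FiniteMultiplicity (minpoly ℚ x) g :=
    Polynomial.finiteMultiplicity_of_degree_pos_of_monic (degree_pos_of_irreducible hirr)
      (minpoly.monic hx) hg
  obtain ⟨g1, hg1, hg2⟩ := hfin.exists_eq_pow_mul_and_not_dvd
  set k := multiplicity (minpoly ℚ x) g with hk
  have key : ∀ z : ℂ, IsIntegral ℚ z → minpoly ℚ z = minpoly ℚ x →
      (g.map (algebraMap ℚ ℂ)).rootMultiplicity z = k := by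
    intro z hz hzx
    have hg1ne : g1 ≠ 0 := by
      rintro rfl
      rw [mul_zero] at hg1
      exact hg hg1
    have hne1 : (minpoly ℚ x).map (algebraMap ℚ ℂ) ≠ 0 :=
      Polynomial.map_ne_zero (minpoly.ne_zero hx)
    have hne2 : g1.map (algebraMap ℚ ℂ) ≠ 0 := Polynomial.map_ne_zero hg1ne
    have h0 : (g1.map (algebraMap ℚ ℂ)).rootMultiplicity z = 0 := by
      rw [rootMultiplicity_eq_zero_iff]
      intro hroot
      exfalso
      apply hg2
      rw [← hzx]
      apply minpoly.dvd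
      rw [IsRoot, eval_map_algebraMap] at hroot
      exact hroot
    have h1 : ((minpoly ℚ x).map (algebraMap ℚ ℂ)).rootMultiplicity z = 1 := by
      have hsep : ((minpoly ℚ x).map (algebraMap ℚ ℂ)).Separable := hirr.separable.map
      have hle := rootMultiplicity_le_one_of_separable hsep z
      have hpos : 0 < ((minpoly ℚ x).map (algebraMap ℚ ℂ)).rootMultiplicity z := by
        rw [rootMultiplicity_pos hne1, IsRoot, eval_map_algebraMap, ← hzx]
        exact minpoly.aeval ℚ z
      omega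
    have hpow : (((minpoly ℚ x).map (algebraMap ℚ ℂ)) ^ k).rootMultiplicity z = k := by
      rw [rm_pow hne1, h1, mul_one]
    rw [hg1, Polynomial.map_mul, Polynomial.map_pow,
      rootMultiplicity_mul (mul_ne_zero (pow_ne_zero _ hne1) hne2), h0, hpow, add_zero]
  rw [key x hx rfl, key y hy h.symm]

end Pool.Agent.Helper29.LS
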