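import Pool.Agent.Helper29.LS.Normb
import Pool.Agent.Helper29.LS.Mult

namespace Pool.Agent.Helper29.LS

open Polynomial IntermediateField

/-- complex polynomial -/
noncomputable def cx (g : ℤ[X]) : ℂ[X] := g.map (Int.castRingHom ℂ)

lemma cx_eval (g : ℤ[X]) (z : ℂ) : (cx g).eval z = aeval z g := by
  unfold cx
  rw [eval_map, aeval_def]
  rfl

lemma cx_ne {g : ℤ[X]} (hg : g ≠ 0) : cx g ≠ 0 := by
  unfold cx
  rwa [Ne, Polynomial.map_eq_zero_iff (RingHom.injective_int _)]

lemma cx_eq_map (g : ℤ[X]) : cx g = (g.map (Int.castRingHom ℚ)).map (algebraMap ℚ ℂ) := by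
  unfold cx
  rw [Polynomial.map_map]
  congr 1

lemma mem_roots_cx {g : ℤ[X]} (hg : g ≠ 0) {z : ℂ} :
    z ∈ (cx g).roots.toFinset ↔ aeval z g = 0 := by
  rw [Multiset.mem_toFinset, mem_roots (cx_ne hg), IsRoot, cx_eval]

lemma sum_rm {g : ℤ[X]} (hg : g.Monic) :
    ∑ z ∈ (cx g).roots.toFinset, (cx g).rootMultiplicity z = g.natDegree := by
  have h1 := Multiset.toFinset_sum_count_eq (cx g).roots
  simp only [count_roots] at h1
  rw [h1]
  have h2 : (cx g).roots.card = (cx g).natDegree :=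
    (splits_iff_card_roots.1 (IsAlgClosed.splits (cx g)))
  rw [h2]
  unfold cx
  exact hg.natDegree_map _

section

variable {p r lam : ℕ} {D f E : ℤ[X]}

lemma int_of_root (hf : f.Monic) {z : ℂ} (hz : aeval z f = 0) : IsIntegral ℤ z :=
  ⟨f, hf, by rw [← aeval_def]; exact hz⟩

lemma dg_le_root (hf : f.Monic) {z : ℂ} (hz : aeval z f = 0) : dg z ≤ f.natDegree := by
  unfold dg
  have h1 : minpoly ℚ z ∣ f.map (Int.castRingHom ℚ) := by
    apply minpoly.dvd
    rw [← eval_map_algebraMap, ← cx_eq_map, cx_eval, hz]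
  have h2 := natDegree_le_of_dvd h1 (hf.map _).ne_zero
  rwa [hf.natDegree_map] at h2

lemma mult_le (hp : p.Prime) (hr : 1 ≤ r) (hlam : 1 ≤ lam) (hf : f.Monic) (hE : E.Monic)
    (hD : D ≠ 0) (hpN : f.natDegree + 1 < p)
    (hdvd : f ∣ D)
    (hid : D * (1 - X ^ lam) * (1 - X ^ p ^ r) =
      E.comp (X ^ p ^ r) * (1 - X ^ (lam * p ^ r)) * (1 - X))
    {b : ℂ} (hb : aeval b f = 0) (hb0 : b ≠ 0) :
    (cx f).rootMultiplicity b ≤ (cx E).rootMultiplicity (b ^ p ^ r) := by
  have hq : 0 < p ^ r := pow_pos hp.pos _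
  have hone : ∀ k : ℕ, 0 < k → (1 - X ^ k : ℂ[X]) ≠ 0 := by
    intro k hk h
    have := congrArg (fun g => g.coeff 0) h
    simp [hk.ne] at this
  have hid2 : cx D * (1 - X ^ lam) * (1 - X ^ p ^ r) =
      (cx E).comp (X ^ p ^ r) * (1 - X ^ (lam * p ^ r)) * (1 - X ^ 1) := by
    have := congrArg cx hid
    unfold cx at this ⊢
    simpa [Polynomial.map_comp] using this
  have hE0 : cx E ≠ 0 := cx_ne hE.ne_zero
  have hEc : (cx E).comp (X ^ p ^ r) ≠ 0 := by
    intro h
    rw [h, zero_mul, zero_mul] at hid2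
    exact mul_ne_zero (mul_ne_zero (cx_ne hD) (hone _ hlam)) (hone _ hq) hid2
  have h1 := congrArg (rootMultiplicity b) hid2
  rw [rootMultiplicity_mul (mul_ne_zero (mul_ne_zero (cx_ne hD) (hone _ hlam)) (hone _ hq)),
    rootMultiplicity_mul (mul_ne_zero (cx_ne hD) (hone _ hlam)),
    rootMultiplicity_mul (mul_ne_zero (mul_ne_zero hEc (hone _ (by positivity))) (hone _ one_pos)),
    rootMultiplicity_mul (mul_ne_zero hEc (hone _ (by positivity))),
    rm_comp hE0 hq hb0, rm_one_sub hlam, rm_one_sub hq, rm_one_sub (by positivity),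
    rm_one_sub one_pos] at h1
  have h2 : (if b ^ (lam * p ^ r) = 1 then 1 else 0 : ℕ) ≤ if b ^ lam = 1 then 1 else 0 := by
    by_cases hb1 : b ^ (lam * p ^ r) = 1
    · have hord : 0 < orderOf b := by
        rw [orderOf_pos_iff, isOfFinOrder_iff_pow_eq_one]
        exact ⟨_, by positivity, hb1⟩
      have hprim : IsPrimitiveRoot b (orderOf b) := IsPrimitiveRoot.orderOf b
      have hcop : ¬ p ∣ orderOf b := by
        intro hpo
        have h3 := tot hp (int_of_root hf hb).tower_top (mem_adjoin_simple_self ℚ b) hord hprim hpo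
        have h4 := dg_le_root hf hb
        omega
      have h5 : orderOf b ∣ lam * p ^ r := orderOf_dvd_of_pow_eq_one hb1
      have h6 : Nat.Coprime (orderOf b) (p ^ r) := by
        apply Nat.Coprime.pow_right
        exact ((hp.coprime_iff_not_dvd).2 hcop).symm
      have h7 : orderOf b ∣ lam := h6.dvd_of_dvd_mul_right h5
      rw [if_pos hb1, if_pos (orderOf_dvd_iff_pow_eq_one.1 h7)]
    · rw [if_neg hb1]
      exact Nat.zero_le _
  have h3 : (if b ^ 1 = 1 then 1 else 0 : ℕ) ≤ if b ^ p ^ r = 1 then 1 else 0 := by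
    by_cases hb1 : b ^ 1 = 1
    · rw [pow_one] at hb1
      rw [hb1]
      simp
    · rw [if_neg hb1]
      exact Nat.zero_le _
  have h4 : (cx f).rootMultiplicity b ≤ (cx D).rootMultiplicity b := by
    apply rootMultiplicity_le_rootMultiplicity_of_dvd (cx_ne hD)
    obtain ⟨g, rfl⟩ := hdvd
    unfold cx
    rw [Polynomial.map_mul]
    exact dvd_mul_right _ _
  omega

end

end Pool.Agent.Helper29.LS
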