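import Pool.Agent.Helper29.LS.Large

namespace Pool.Agent.Helper29.LS

open Polynomial IntermediateField

lemma max_one_pow {a : ℝ} (ha : 0 ≤ a) (q : ℕ) : (max 1 a) ^ q = max 1 (a ^ q) := by
  rcases le_total 1 a with h | h
  · rw [max_eq_right h, max_eq_right (one_le_pow₀ h)]
  · rw [max_eq_left h, one_pow, max_eq_left (pow_le_one₀ ha h)]

lemma mahler_bound {E : ℤ[X]} (hE : OSType E) {N : ℕ} (hN : E.natDegree = N) :
    (((cx E).roots.map (fun a => max 1 ‖a‖)).prod) ^ 2 ≤ N + 1 := by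
  have h1 := mahlerMeasure_eq_leadingCoeff_mul_prod_roots (cx E)
  have hlc : (cx E).leadingCoeff = 1 := by
    unfold cx
    exact (hE.monic.map _).leadingCoeff
  rw [hlc, norm_one, one_mul] at h1
  have h2 := mahlerMeasure_le_sqrt_sum_sq_norm_coeff (cx E)
  have h3 : ∑ i ∈ (cx E).support, ‖(cx E).coeff i‖ ^ 2 ≤ (N : ℝ) + 1 := by
    calc _ ≤ ∑ i ∈ (cx E).support, (1 : ℝ) := by
          apply Finset.sum_le_sum
          intro i _
          have h4 : ‖(cx E).coeff i‖ ≤ 1 := by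
            unfold cx
            rw [coeff_map]
            simp only [eq_intCast, Complex.norm_intCast]
            exact_mod_cast hE.coeff_abs i
          exact pow_le_one₀ (norm_nonneg _) h4
      _ = ((cx E).support.card : ℝ) := by simp
      _ ≤ N + 1 := by
          have h4 := card_supp_le_succ_natDegree (cx E)
          have h5 : (cx E).natDegree = N := by
            unfold cx
            rw [hE.monic.natDegree_map, hN]
          rw [h5] at h4
          exact_mod_cast h4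
  rw [← h1]
  have h4 : 0 ≤ (cx E).mahlerMeasure := mahlerMeasure_nonneg _
  calc (cx E).mahlerMeasure ^ 2 ≤ (√(∑ i ∈ (cx E).support, ‖(cx E).coeff i‖ ^ 2)) ^ 2 :=
        pow_le_pow_left₀ h4 h2 2
    _ = ∑ i ∈ (cx E).support, ‖(cx E).coeff i‖ ^ 2 := Real.sq_sqrt (by positivity)
    _ ≤ _ := h3

lemma prod_sub_le {s : Multiset ℂ} {S : Finset ℂ} (hS : S ⊆ s.toFinset) :
    ∏ a ∈ S, max 1 ‖a‖ ≤ (s.map (fun a => max 1 ‖a‖)).prod := by
  classical
  rw [Finset.prod_multiset_map_count]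
  calc ∏ a ∈ S, max 1 ‖a‖ ≤ ∏ a ∈ s.toFinset, max 1 ‖a‖ := by
        rw [← Finset.prod_sdiff hS]
        have h1 : 1 ≤ ∏ a ∈ s.toFinset \ S, max 1 ‖a‖ := by
          have := Finset.prod_le_prod (s := s.toFinset \ S) (f := fun _ => (1 : ℝ))
            (g := fun a => max 1 ‖a‖) (fun i _ => zero_le_one) (fun i _ => le_max_left _ _)
          simpa using this
        have h2 : 0 ≤ ∏ a ∈ S, max 1 ‖a‖ := Finset.prod_nonneg fun i _ => by positivity
        nlinarith
    _ ≤ _ := by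
        apply Finset.prod_le_prod
        · intro i _; positivity
        · intro i hi
          have h1 : 1 ≤ s.count i := by
            rw [Nat.succ_le_iff, Multiset.count_pos]
            exact Multiset.mem_toFinset.1 hi
          calc max 1 ‖i‖ = (max 1 ‖i‖) ^ 1 := (pow_one _).symm
            _ ≤ _ := pow_le_pow_right₀ (le_max_left _ _) h1

lemma numeric {p q N d : ℕ} {M : ℝ} (hM : 0 ≤ M) (hd : 1 ≤ d) (hN : 1 ≤ N) (hq : N < q)
    (hbig : (N + 1) ^ 3 ≤ p ^ 2) (h1 : (p : ℝ) ^ d ≤ (N + 1) ^ d * M ^ N)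
    (h2 : (M ^ q) ^ 2 ≤ N + 1) : False := by
  have h3 : ((p : ℝ) ^ d) ^ (2 * q) ≤ ((N + 1) ^ d * M ^ N) ^ (2 * q) :=
    pow_le_pow_left₀ (by positivity) h1 _
  have h4 : (((N : ℝ) + 1) ^ d * M ^ N) ^ (2 * q) ≤ ((N : ℝ) + 1) ^ (2 * d * q + N) := by
    calc (((N : ℝ) + 1) ^ d * M ^ N) ^ (2 * q) = ((N : ℝ) + 1) ^ (2 * d * q) * ((M ^ q) ^ 2) ^ N := by
          rw [mul_pow, ← pow_mul, ← pow_mul, ← pow_mul, ← pow_mul]
          congr 2 <;> ring
      _ ≤ ((N : ℝ) + 1) ^ (2 * d * q) * ((N : ℝ) + 1) ^ N := by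
          apply mul_le_mul_of_nonneg_left _ (by positivity)
          exact pow_le_pow_left₀ (by positivity) h2 N
      _ = _ := by rw [← pow_add]
  have h5 : (((N : ℝ) + 1) ^ 3) ^ (d * q) ≤ ((p : ℝ) ^ d) ^ (2 * q) := by
    have h6 : ((N : ℝ) + 1) ^ 3 ≤ (p : ℝ) ^ 2 := by exact_mod_cast hbig
    calc (((N : ℝ) + 1) ^ 3) ^ (d * q) ≤ ((p : ℝ) ^ 2) ^ (d * q) :=
          pow_le_pow_left₀ (by positivity) h6 _
      _ = _ := by
          rw [← pow_mul, ← pow_mul]
          congr 1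
          ring
  have h6 := (h5.trans h3).trans h4
  rw [← pow_mul] at h6
  have h7 : (1 : ℝ) < N + 1 := by
    have : (1 : ℝ) ≤ N := by exact_mod_cast hN
    linarith
  have h8 := (pow_le_pow_iff_right₀ h7).1 h6
  have h9 : q ≤ d * q := Nat.le_mul_of_pos_left _ hd
  have h10 : 3 * (d * q) = 2 * d * q + d * q := by ring
  omega

end Pool.Agent.Helper29.LS
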