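import Pool.Agent.Helper29.LS.Large2

namespace Pool.Agent.Helper29.LS

open Polynomial IntermediateField

variable {p r lam : ℕ} {D f E : ℤ[X]}

/-- every root of `f` is a root of `E` -/
lemma contain (hp : p.Prime) (hr : 1 ≤ r) (hf : f.Monic) (hE : OSType E)
    (hdeg : E.natDegree = f.natDegree) (hN : 1 ≤ f.natDegree)
    (hbig : (f.natDegree + 1) ^ 3 ≤ p ^ 2) (hpN : f.natDegree + 1 < p)
    (hmod : f.map (Int.castRingHom (ZMod p)) = E.map (Int.castRingHom (ZMod p)))
    (hne0 : ∀ z : ℂ, aeval z f = 0 → z ≠ 0)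
    (himg : ∀ z : ℂ, aeval z f = 0 → aeval (z ^ p ^ r) E = 0)
    {b : ℂ} (hb : aeval b f = 0) : aeval b E = 0 := by
  classical
  by_contra hbE
  have hbi : IsIntegral ℤ b := int_of_root hf hb
  have hbQ : IsIntegral ℚ b := hbi.tower_top
  have := fd hbQ
  -- `w`
  have hdv : (C (p : ℤ) : ℤ[X]) ∣ E - f := by
    rw [C_dvd_iff_dvd_coeff]
    intro n
    have h1 := congrArg (fun g => g.coeff n) hmod
    simp only [coeff_map, eq_intCast] at h1
    rw [coeff_sub, ← ZMod.intCast_eq_intCast_iff_dvd_sub]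
    exact h1
  obtain ⟨w, hw⟩ := hdv
  have hEw : E = f + C (p : ℤ) * w := by rw [← hw]; ring
  have hval : ∀ z : ℂ, aeval z f = 0 → aeval z E = p * aeval z w := by
    intro z hz
    rw [hEw, map_add, hz, zero_add, map_mul, aeval_C]
    simp
  have hw0 : aeval b w ≠ 0 := by
    intro h
    apply hbE
    rw [hval b hb, h, mul_zero]
  have hnorm := norm_ge_one hbi w hw0
  set G := AdjoinSimple.gen ℚ b with hG
  have hGf : aeval G f = 0 := by
    have h1 : ((ℚ⟮b⟯).val.restrictScalars ℤ) (aeval G f) = 0 := by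
      rw [← aeval_algHom_apply]
      exact hb
    have h2 : Function.Injective ((ℚ⟮b⟯).val.restrictScalars ℤ) := Subtype.val_injective
    exact (map_eq_zero_iff _ h2).1 h1
  have hroot : ∀ σ : (ℚ⟮b⟯ →ₐ[ℚ] ℂ), aeval (σ G) f = 0 := by
    intro σ
    have h1 := aeval_algHom_apply (σ.restrictScalars ℤ) G f
    rw [hGf, map_zero] at h1
    exact h1
  have hinjσ : ∀ σ τ : (ℚ⟮b⟯ →ₐ[ℚ] ℂ), σ G = τ G → σ = τ := by
    intro σ τ h
    apply (IntermediateField.adjoin.powerBasis hbQ).algHom_ext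
    rw [IntermediateField.adjoin.powerBasis_gen]
    exact h
  have hdgr : ∀ z : ℂ, aeval z f = 0 → dg z < p - 1 := by
    intro z hz
    have := dg_le_root hf hz
    omega
  have hinjq : ∀ σ τ : (ℚ⟮b⟯ →ₐ[ℚ] ℂ), (σ G) ^ p ^ r = (τ G) ^ p ^ r → σ = τ := by
    intro σ τ h
    apply hinjσ
    exact pow_inj hp r (int_of_root hf (hroot σ)).tower_top (hne0 _ (hroot σ))
      (hdgr _ (hroot σ)) (int_of_root hf (hroot τ)).tower_top (hne0 _ (hroot τ))
      (hdgr _ (hroot τ)) h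
  set N := f.natDegree with hNdef
  set d := Fintype.card (ℚ⟮b⟯ →ₐ[ℚ] ℂ) with hd
  have hd1 : 1 ≤ d := by
    rw [hd, Nat.succ_le_iff, Fintype.card_pos_iff]
    exact ⟨(ℚ⟮b⟯).val⟩
  set M : ℝ := ∏ σ : (ℚ⟮b⟯ →ₐ[ℚ] ℂ), max 1 ‖σ G‖ with hM
  have hM0 : 0 ≤ M := Finset.prod_nonneg fun i _ => by positivity
  -- lower bound
  have hlow : (p : ℝ) ^ d ≤ ∏ σ : (ℚ⟮b⟯ →ₐ[ℚ] ℂ), ‖aeval (σ G) E‖ := by
    have h1 : ∀ σ : (ℚ⟮b⟯ →ₐ[ℚ] ℂ), ‖aeval (σ G) E‖ = p * ‖aeval (σ G) w‖ := by
      intro σ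
      rw [hval _ (hroot σ), norm_mul, Complex.norm_natCast]
    rw [Finset.prod_congr rfl (fun σ _ => h1 σ), Finset.prod_mul_distrib, Finset.prod_const,
      Finset.card_univ]
    exact le_mul_of_one_le_right (by positivity) hnorm
  have hup : ∏ σ : (ℚ⟮b⟯ →ₐ[ℚ] ℂ), ‖aeval (σ G) E‖ ≤ (N + 1) ^ d * M ^ N := by
    calc _ ≤ ∏ σ : (ℚ⟮b⟯ →ₐ[ℚ] ℂ), (((N : ℝ) + 1) * (max 1 ‖σ G‖) ^ N) := by
          apply Finset.prod_le_prod
          · intro i _; positivity
          · intro σ _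
            exact eval_bound hE.coeff_abs hdeg _
      _ = _ := by
          rw [Finset.prod_mul_distrib, Finset.prod_const, Finset.card_univ, Finset.prod_pow]
  have hMq : (M ^ p ^ r) ^ 2 ≤ N + 1 := by
    refine le_trans ?_ (mahler_bound hE hdeg)
    apply pow_le_pow_left₀ (by positivity)
    have h1 : M ^ p ^ r = ∏ σ : (ℚ⟮b⟯ →ₐ[ℚ] ℂ), max 1 ‖(σ G) ^ p ^ r‖ := by
      rw [hM, ← Finset.prod_pow]
      apply Finset.prod_congr rfl
      intro σ _
      rw [max_one_pow (norm_nonneg _), norm_pow]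
    have h2 : ∏ σ : (ℚ⟮b⟯ →ₐ[ℚ] ℂ), max 1 ‖(σ G) ^ p ^ r‖ =
        ∏ a ∈ Finset.univ.image (fun σ : (ℚ⟮b⟯ →ₐ[ℚ] ℂ) => (σ G) ^ p ^ r), max 1 ‖a‖ := by
      rw [Finset.prod_image]
      intro σ _ τ _ h
      exact hinjq σ τ h
    rw [h1, h2]
    apply prod_sub_le
    intro a ha
    rw [Finset.mem_image] at ha
    obtain ⟨σ, -, rfl⟩ := ha
    exact (mem_roots_cx hE.monic.ne_zero).2 (himg _ (hroot σ))
  have hqN : N < p ^ r := by
    have : p ≤ p ^ r := Nat.le_self_pow (by omega) p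
    omega
  exact numeric hM0 hd1 hN hqN hbig (hlow.trans hup) hMq

theorem large (hp : p.Prime) (hr : 1 ≤ r) (hlam : 1 ≤ lam) (hf : f.Monic) (hE : OSType E)
    (hD0 : D.coeff 0 = 1) (hdeg : E.natDegree = f.natDegree) (hN : 1 ≤ f.natDegree)
    (hbig : (f.natDegree + 1) ^ 3 ≤ p ^ 2) (hdvd : f ∣ D)
    (hid : D * (1 - X ^ lam) * (1 - X ^ p ^ r) =
      E.comp (X ^ p ^ r) * (1 - X ^ (lam * p ^ r)) * (1 - X))
    (hmod : f.map (Int.castRingHom (ZMod p)) = E.map (Int.castRingHom (ZMod p))) : f = E := by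
  classical
  have hq : 0 < p ^ r := pow_pos hp.pos _
  have hD : D ≠ 0 := by
    rintro rfl
    simp at hD0
  have hEm : E.Monic := hE.monic
  have hpN : f.natDegree + 1 < p := by
    by_contra h
    rw [not_lt] at h
    have h1 : p ^ 2 ≤ (f.natDegree + 1) ^ 2 := Nat.pow_le_pow_left h 2
    have h2 : (f.natDegree + 1) ^ 2 < (f.natDegree + 1) ^ 3 :=
      Nat.pow_lt_pow_right (by omega) (by norm_num)
    omega
  have hne0 : ∀ z : ℂ, aeval z f = 0 → z ≠ 0 := by
    rintro z hz rfl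
    obtain ⟨g, hg⟩ := hdvd
    have h1 : (aeval (0 : ℂ)) f = ((f.coeff 0 : ℤ) : ℂ) := by
      rw [← Polynomial.coeff_zero_eq_aeval_zero']
      simp
    rw [h1] at hz
    have h2 : f.coeff 0 = 0 := by exact_mod_cast hz
    rw [hg, mul_coeff_zero, h2, zero_mul] at hD0
    exact zero_ne_one hD0
  have hmult : ∀ z : ℂ, aeval z f = 0 →
      (cx f).rootMultiplicity z ≤ (cx E).rootMultiplicity (z ^ p ^ r) := fun z hz =>
    mult_le hp hr hlam hf hEm hD hpN hdvd hid hz (hne0 z hz)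
  have hpos : ∀ z : ℂ, aeval z f = 0 → 1 ≤ (cx f).rootMultiplicity z := by
    intro z hz
    rw [Nat.succ_le_iff, rootMultiplicity_pos (cx_ne hf.ne_zero), IsRoot, cx_eval]
    exact hz
  have himg : ∀ z : ℂ, aeval z f = 0 → aeval (z ^ p ^ r) E = 0 := by
    intro z hz
    have h1 := (hpos z hz).trans (hmult z hz)
    rw [Nat.succ_le_iff, rootMultiplicity_pos (cx_ne hEm.ne_zero), IsRoot, cx_eval] at h1
    exact h1
  have hcont : ∀ z : ℂ, aeval z f = 0 → aeval z E = 0 := fun z hz =>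
    contain hp hr hf hE hdeg hN hbig hpN hmod hne0 himg hz
  have hdgr : ∀ z : ℂ, aeval z f = 0 → dg z < p - 1 := by
    intro z hz
    have := dg_le_root hf hz
    omega
  set Rf := (cx f).roots.toFinset with hRf
  set RE := (cx E).roots.toFinset with hRE
  have hmemf : ∀ z, z ∈ Rf ↔ aeval z f = 0 := fun z => mem_roots_cx hf.ne_zero
  have hmemE : ∀ z, z ∈ RE ↔ aeval z E = 0 := fun z => mem_roots_cx hEm.ne_zero
  have hinj : Set.InjOn (fun z : ℂ => z ^ p ^ r) (Rf : Set ℂ) := by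
    intro x hx y hy h
    have hx' := (hmemf x).1 hx
    have hy' := (hmemf y).1 hy
    exact pow_inj hp r (int_of_root hf hx').tower_top (hne0 _ hx')
      (hdgr _ hx') (int_of_root hf hy').tower_top (hne0 _ hy') (hdgr _ hy') h
  have hsub : Rf.image (fun z : ℂ => z ^ p ^ r) ⊆ RE := by
    intro a ha
    rw [Finset.mem_image] at ha
    obtain ⟨z, hz, rfl⟩ := ha
    exact (hmemE _).2 (himg z ((hmemf z).1 hz))
  have hsf := sum_rm hf
  have hsE := sum_rm hEm
  rw [← hRf] at hsf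
  rw [← hRE] at hsE
  have h1 : ∑ z ∈ Rf, (cx f).rootMultiplicity z ≤
      ∑ z ∈ Rf, (cx E).rootMultiplicity (z ^ p ^ r) :=
    Finset.sum_le_sum fun z hz => hmult z ((hmemf z).1 hz)
  have h2 : ∑ z ∈ Rf, (cx E).rootMultiplicity (z ^ p ^ r) =
      ∑ a ∈ Rf.image (fun z : ℂ => z ^ p ^ r), (cx E).rootMultiplicity a := by
    rw [Finset.sum_image hinj]
  have h3 : ∑ a ∈ Rf.image (fun z : ℂ => z ^ p ^ r), (cx E).rootMultiplicity a ≤
      ∑ a ∈ RE, (cx E).rootMultiplicity a := Finset.sum_le_sum_of_subset hsub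
  have h4 : ∑ z ∈ Rf, (cx f).rootMultiplicity z =
      ∑ z ∈ Rf, (cx E).rootMultiplicity (z ^ p ^ r) := by omega
  have h5 := (Finset.sum_eq_sum_iff_of_le (fun z hz => hmult z ((hmemf z).1 hz))).1 h4
  have h6 : Rf.image (fun z : ℂ => z ^ p ^ r) = RE := by
    by_contra hne
    obtain ⟨a, haE, ha⟩ := Finset.exists_of_ssubset (Finset.ssubset_iff_subset_ne.2 ⟨hsub, hne⟩)
    have h7 := Finset.sum_lt_sum_of_subset hsub haE ha
      (f := fun a => (cx E).rootMultiplicity a)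
      (by
        have := (hmemE a).1 haE
        rw [rootMultiplicity_pos (cx_ne hEm.ne_zero), IsRoot, cx_eval]
        exact this) (fun _ _ _ => Nat.zero_le _)
    omega
  have hcard : RE.card = Rf.card := by
    rw [← h6, Finset.card_image_of_injOn hinj]
  have hsub2 : Rf ⊆ RE := fun z hz => (hmemE z).2 (hcont z ((hmemf z).1 hz))
  have heq : Rf = RE := Finset.eq_of_subset_of_card_le hsub2 hcard.le
  -- all roots are roots of unity of order prime to `p`
  have hstep : ∀ z ∈ Rf, z ^ p ^ r ∈ Rf := by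
    intro z hz
    rw [heq, ← h6]
    exact Finset.mem_image_of_mem _ hz
  have hconj : ∀ z ∈ Rf, minpoly ℚ z = minpoly ℚ (z ^ p ^ r) := by
    intro z hz
    -- iterate
    have hit : ∀ n : ℕ, z ^ (p ^ r) ^ n ∈ Rf := by
      intro n
      induction n with
      | zero => simpa using hz
      | succ n ih =>
        rw [pow_succ, pow_mul]
        exact hstep _ ih
    have hz0 : z ≠ 0 := hne0 z ((hmemf z).1 hz)
    have hninj : ¬ Function.Injective (fun n : ℕ => z ^ (p ^ r) ^ n) := by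
      intro hI
      exact Set.infinite_of_injective_forall_mem hI hit Rf.finite_toSet
    rw [Function.Injective] at hninj
    push Not at hninj
    obtain ⟨a, b, hab, hne⟩ := hninj
    have h1q : 1 < p ^ r := Nat.one_lt_pow (by omega) hp.one_lt
    have hfo : ∃ k, 0 < k ∧ z ^ k = 1 := by
      have key : ∀ a b : ℕ, a < b → z ^ (p ^ r) ^ a = z ^ (p ^ r) ^ b → ∃ k, 0 < k ∧ z ^ k = 1 := by
        intro a b hlt hab
        have h1 : (p ^ r) ^ a < (p ^ r) ^ b := Nat.pow_lt_pow_right h1q hlt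
        refine ⟨(p ^ r) ^ b - (p ^ r) ^ a, by omega, ?_⟩
        have h2 : z ^ (p ^ r) ^ a * z ^ ((p ^ r) ^ b - (p ^ r) ^ a) = z ^ (p ^ r) ^ a * 1 := by
          rw [← pow_add, Nat.add_sub_cancel' h1.le, mul_one, hab]
        exact mul_left_cancel₀ (pow_ne_zero _ hz0) h2
      rcases lt_or_gt_of_ne hne with h | h
      · exact key a b h hab
      · exact key b a h hab.symm
    obtain ⟨k, hk, hk1⟩ := hfo
    have hord : 0 < orderOf z := by
      rw [orderOf_pos_iff, isOfFinOrder_iff_pow_eq_one]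
      exact ⟨k, hk, hk1⟩
    have hprim : IsPrimitiveRoot z (orderOf z) := IsPrimitiveRoot.orderOf z
    have hcop : ¬ p ∣ orderOf z := by
      intro hpo
      have hz' := (hmemf z).1 hz
      have h3 := tot hp (int_of_root hf hz').tower_top (mem_adjoin_simple_self ℚ z) hord hprim hpo
      have h4 := dg_le_root hf hz'
      omega
    have hcop2 : Nat.Coprime (p ^ r) (orderOf z) :=
      Nat.Coprime.pow_left _ ((hp.coprime_iff_not_dvd).2 hcop)
    have hprim2 : IsPrimitiveRoot (z ^ p ^ r) (orderOf z) := hprim.pow_of_coprime _ hcop2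
    rw [← cyclotomic_eq_minpoly_rat hprim hord, ← cyclotomic_eq_minpoly_rat hprim2 hord]
  have hrm : ∀ z, (cx f).roots.count z = (cx E).roots.count z := by
    intro z
    rw [count_roots, count_roots]
    by_cases hz : z ∈ Rf
    · have hz' := (hmemf z).1 hz
      rw [h5 z hz, cx_eq_map E]
      exact (rm_conj (int_of_root hf hz').tower_top (hconj z hz) _).symm
    · have hzE : z ∉ RE := by rwa [← heq]
      rw [rootMultiplicity_eq_zero_iff.2, rootMultiplicity_eq_zero_iff.2]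
      · intro h
        exfalso
        apply hzE
        rw [hmemE, ← cx_eval]
        exact h
      · intro h
        exfalso
        apply hz
        rw [hmemf, ← cx_eval]
        exact h
  have hroots : (cx f).roots = (cx E).roots := Multiset.ext.2 hrm
  have hcf : (cx f).Monic := hf.map _
  have hcE : (cx E).Monic := hEm.map _
  have hceq : cx f = cx E := by
    rw [(IsAlgClosed.splits (cx f)).eq_prod_roots_of_monic hcf,
      (IsAlgClosed.splits (cx E)).eq_prod_roots_of_monic hcE, hroots]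
  exact Polynomial.map_injective _ (RingHom.injective_int _) hceq

end Pool.Agent.Helper29.LS
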