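import Mathlib

namespace Pool.Agent.Helper29.LS

open Finset
open scoped PowerSeries

/-- the power series `∏ (1 - b X)` -/
noncomputable def Fs (s : Multiset ℂ) : ℂ⟦X⟧ :=
  (s.map fun b => 1 - PowerSeries.C b * PowerSeries.X).prod

/-- the power series of power sums -/
noncomputable def Qs (s : Multiset ℂ) : ℂ⟦X⟧ :=
  PowerSeries.mk fun n => (s.map fun b => b ^ (n + 1)).sum

lemma geo_one (b : ℂ) : (1 - PowerSeries.C b * PowerSeries.X) *
    PowerSeries.mk (fun n => b ^ (n + 1)) = PowerSeries.C b := by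
  ext n
  rw [sub_mul, one_mul, map_sub, mul_assoc, PowerSeries.coeff_C_mul, PowerSeries.coeff_mk]
  rcases n with _ | n
  · simp
  · rw [PowerSeries.coeff_succ_X_mul, PowerSeries.coeff_mk, PowerSeries.coeff_C,
      if_neg (Nat.succ_ne_zero n)]
    ring

lemma Qs_cons (b : ℂ) (s : Multiset ℂ) :
    Qs (b ::ₘ s) = PowerSeries.mk (fun n => b ^ (n + 1)) + Qs s := by
  ext n
  simp [Qs]

lemma Fs_der (s : Multiset ℂ) : PowerSeries.derivative ℂ (Fs s) = -(Fs s * Qs s) := by
  induction s using Multiset.induction_on with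
  | empty =>
    have : Qs 0 = 0 := by
      ext n
      simp [Qs]
    rw [this, mul_zero, neg_zero]
    unfold Fs
    simp
  | cons b s ih =>
    have h1 : Fs (b ::ₘ s) = (1 - PowerSeries.C b * PowerSeries.X) * Fs s := by
      simp [Fs]
    have h2 : PowerSeries.derivative ℂ (1 - PowerSeries.C b * PowerSeries.X) =
        -PowerSeries.C b := by
      simp
    rw [h1, Derivation.leibniz, h2, ih, Qs_cons]
    simp only [smul_eq_mul]
    linear_combination Fs s * geo_one b

/-- coefficients -/
lemma coeff_rec (s : Multiset ℂ) (n : ℕ) :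
    ((n : ℂ) + 1) * PowerSeries.coeff (n + 1) (Fs s) =
      -∑ x ∈ antidiagonal n, PowerSeries.coeff x.1 (Fs s) *
        (s.map fun b => b ^ (x.2 + 1)).sum := by
  have h := congrArg (PowerSeries.coeff n) (Fs_der s)
  rw [PowerSeries.coeff_derivative, map_neg, PowerSeries.coeff_mul] at h
  simp only [Qs, PowerSeries.coeff_mk] at h
  linear_combination h

/-- the power series of partial sums -/
noncomputable def Hs (s : Multiset ℂ) : ℂ⟦X⟧ := Fs s * PowerSeries.mk (fun _ => 1)

lemma one_sub_I : (1 - PowerSeries.X) * PowerSeries.mk (fun _ => (1 : ℂ)) = 1 := by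
  ext n
  rw [sub_mul, one_mul, map_sub]
  rcases n with _ | n
  · simp
  · rw [PowerSeries.coeff_succ_X_mul]
    simp

lemma I_der : PowerSeries.derivative ℂ (PowerSeries.mk (fun _ => (1 : ℂ))) =
    PowerSeries.mk (fun _ => (1 : ℂ)) * PowerSeries.mk (fun _ => (1 : ℂ)) := by
  have h1 := congrArg (PowerSeries.derivative ℂ) one_sub_I
  rw [Derivation.leibniz] at h1
  simp only [smul_eq_mul, map_sub, PowerSeries.derivative_X, PowerSeries.derivative_one] at h1
  set I : ℂ⟦X⟧ := PowerSeries.mk (fun _ => (1 : ℂ)) with hI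
  have h2 := one_sub_I
  rw [← hI] at h2
  linear_combination I * h1 - PowerSeries.derivative ℂ I * h2

lemma Hs_der (s : Multiset ℂ) : PowerSeries.derivative ℂ (Hs s) =
    Hs s * (PowerSeries.mk (fun _ => 1) - Qs s) := by
  unfold Hs
  rw [Derivation.leibniz, I_der, Fs_der]
  simp only [smul_eq_mul]
  ring

lemma coeff_Hs (s : Multiset ℂ) (n : ℕ) :
    PowerSeries.coeff n (Hs s) = ∑ i ∈ range (n + 1), PowerSeries.coeff i (Fs s) := by
  unfold Hs
  rw [PowerSeries.coeff_mul, Nat.sum_antidiagonal_eq_sum_range_succ_mk]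
  simp

lemma coeff_Hs_rec (s : Multiset ℂ) (n : ℕ) :
    ((n : ℂ) + 1) * PowerSeries.coeff (n + 1) (Hs s) =
      ∑ x ∈ antidiagonal n, PowerSeries.coeff x.1 (Hs s) *
        (1 - (s.map fun b => b ^ (x.2 + 1)).sum) := by
  have h := congrArg (PowerSeries.coeff n) (Hs_der s)
  rw [PowerSeries.coeff_derivative, PowerSeries.coeff_mul] at h
  simp only [Qs, map_sub, PowerSeries.coeff_mk] at h
  linear_combination h

/-- the power series of `1 -` partial sums -/
noncomputable def Gs (s : Multiset ℂ) : ℂ⟦X⟧ := PowerSeries.mk (fun _ => 1) - Hs s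

lemma coeff_G_rec (s : Multiset ℂ) (n : ℕ) :
    ((n : ℂ) + 1) * PowerSeries.coeff (n + 1) (Fs s) =
      -(s.map fun b => b ^ (n + 1)).sum + ∑ x ∈ antidiagonal n,
        (1 - PowerSeries.coeff x.1 (Hs s)) * ((s.map fun b => b ^ (x.2 + 1)).sum -
          if x.2 = 0 then 0 else (s.map fun b => b ^ x.2).sum) := by
  have h0 : Fs s = 1 - (1 - PowerSeries.X) * Gs s := by
    unfold Gs Hs
    linear_combination (1 - Fs s) * one_sub_I
  have h1 : (1 - PowerSeries.X) * Qs s = PowerSeries.mk (fun n =>
      (s.map fun b => b ^ (n + 1)).sum - if n = 0 then 0 else (s.map fun b => b ^ n).sum) := by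
    ext n
    rw [sub_mul, one_mul, map_sub]
    rcases n with _ | n
    · simp [Qs]
    · rw [PowerSeries.coeff_succ_X_mul]
      simp [Qs]
  have h2 : PowerSeries.derivative ℂ (Fs s) = -Qs s + Gs s * ((1 - PowerSeries.X) * Qs s) := by
    rw [Fs_der]
    linear_combination -Qs s * h0
  rw [h1] at h2
  have h := congrArg (PowerSeries.coeff n) h2
  rw [PowerSeries.coeff_derivative, map_add, map_neg, PowerSeries.coeff_mul] at h
  simp only [Qs, Gs, map_sub, PowerSeries.coeff_mk] at h
  linear_combination h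

/-- the coefficients of the reversed polynomial -/
lemma reflect_prod (s : Multiset ℂ) :
    ((s.map fun b => Polynomial.X - Polynomial.C b).prod).reflect s.card =
      (s.map fun b => 1 - Polynomial.C b * Polynomial.X).prod := by
  induction s using Multiset.induction_on with
  | empty => simp [Polynomial.reflect_one]
  | cons b s ih =>
    rw [Multiset.map_cons, Multiset.prod_cons, Multiset.map_cons, Multiset.prod_cons,
      Multiset.card_cons, add_comm, Polynomial.reflect_mul _ _ (Polynomial.natDegree_X_sub_C_le b)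
        (by rw [Polynomial.natDegree_multiset_prod_X_sub_C_eq_card]), ih,
      Polynomial.reflect_sub, Polynomial.reflect_one_X, Polynomial.reflect_C, pow_one]

lemma Fs_eq (s : Multiset ℂ) :
    Fs s = (((s.map fun b => 1 - Polynomial.C b * Polynomial.X).prod : Polynomial ℂ) : ℂ⟦X⟧) := by
  induction s using Multiset.induction_on with
  | empty => simp [Fs]
  | cons b s ih =>
    have h1 : Fs (b ::ₘ s) = (1 - PowerSeries.C b * PowerSeries.X) * Fs s := by
      simp [Fs]
    rw [h1, ih, Multiset.map_cons, Multiset.prod_cons]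
    simp

lemma coeff_Fs {g : Polynomial ℂ} (hg : g.Monic) {n : ℕ} (hn : n ≤ g.natDegree) :
    PowerSeries.coeff n (Fs g.roots) = g.coeff (g.natDegree - n) := by
  have hsp := (IsAlgClosed.splits g).eq_prod_roots_of_monic hg
  have hcard : g.roots.card = g.natDegree := Polynomial.splits_iff_card_roots.1 (IsAlgClosed.splits g)
  rw [Fs_eq, Polynomial.coeff_coe, ← reflect_prod, ← hsp, Polynomial.coeff_reflect, hcard,
    Polynomial.revAt_le hn]

end Pool.Agent.Helper29.LS
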