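import Pool.Agent.Helper29.LS.Ident

namespace Pool.Agent.Helper29.LS

open Polynomial Finset

lemma coeff_zero_pow {R : Type*} [CommRing R] (g : R[X]) (n : ℕ) :
    (g ^ n).coeff 0 = g.coeff 0 ^ n := by
  rw [coeff_zero_eq_eval_zero, eval_pow, coeff_zero_eq_eval_zero]

lemma Murasugi.normal {p : ℕ} [Fact p.Prime] {r lam : ℕ} (hr : 1 ≤ r) (hlam : 1 ≤ lam)
    {D f : ℤ[X]} (hD0 : D.coeff 0 = 1) (hD1 : D.eval 1 = 1) (hf : f.eval 1 = 1)
    (h : Murasugi p (p ^ r) lam D f) :
    Nat.Coprime (p ^ r) lam ∧ D.map (Int.castRingHom (ZMod p)) =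
      (f.map (Int.castRingHom (ZMod p))) ^ p ^ r * (∑ k ∈ range lam, X ^ k) ^ (p ^ r - 1) := by
  have hp : p.Prime := Fact.out
  have hq : 1 < p ^ r := Nat.one_lt_pow (by omega) hp.one_lt
  obtain ⟨⟨g, hg⟩, c, i, j, hc⟩ := h
  set φ := Int.castRingHom (ZMod p) with hφ
  set G : (ZMod p)[X] := ∑ k ∈ range lam, X ^ k with hG
  have hG0 : G.coeff 0 = 1 := by
    rw [hG, finsetSum_coeff]
    simp only [coeff_X_pow]
    rw [Finset.sum_ite_eq (range lam) 0, if_pos (by rw [mem_range]; omega)]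
  have hG1 : G.eval 1 = (lam : ZMod p) := by
    rw [hG, eval_finsetSum]
    simp
  have hf0 : (f.map φ).coeff 0 ≠ 0 := by
    intro h1
    have h2 : (D.map φ).coeff 0 = 1 := by rw [coeff_map, hD0, map_one]
    rw [hg, Polynomial.map_mul, mul_coeff_zero, h1, zero_mul] at h2
    exact zero_ne_one h2
  have hR0 : (f.map φ ^ p ^ r * G ^ (p ^ r - 1)).coeff 0 ≠ 0 := by
    rw [mul_coeff_zero, coeff_zero_pow, coeff_zero_pow, hG0, one_pow, mul_one]
    exact pow_ne_zero _ hf0
  have hL : ∀ m, (X ^ j * D.map φ).coeff m = if j ≤ m then (D.map φ).coeff (m - j) else 0 := by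
    intro m
    rw [mul_comm, coeff_mul_X_pow']
  have hR : ∀ m, (C c * X ^ i * (f.map φ ^ p ^ r * G ^ (p ^ r - 1))).coeff m =
      if i ≤ m then c * (f.map φ ^ p ^ r * G ^ (p ^ r - 1)).coeff (m - i) else 0 := by
    intro m
    have : C c * X ^ i * (f.map φ ^ p ^ r * G ^ (p ^ r - 1)) =
        C c * (f.map φ ^ p ^ r * G ^ (p ^ r - 1)) * X ^ i := by ring
    rw [this, coeff_mul_X_pow', coeff_C_mul]
  have hc0 : c ≠ 0 := by
    rintro rfl
    have h1 := congrArg (fun g => g.coeff j) hc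
    simp only [hL, le_refl, if_true, Nat.sub_self, coeff_map, hD0, map_one, map_zero, zero_mul,
      coeff_zero] at h1
    exact one_ne_zero h1
  have hij : i = j := by
    rcases lt_trichotomy i j with h1 | h1 | h1
    · exfalso
      have h2 := congrArg (fun g => g.coeff i) hc
      simp only [hL, hR] at h2
      rw [if_neg (by omega), if_pos le_rfl, Nat.sub_self] at h2
      exact mul_ne_zero hc0 hR0 h2.symm
    · exact h1
    · exfalso
      have h2 := congrArg (fun g => g.coeff j) hc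
      simp only [hL, hR] at h2
      rw [if_pos le_rfl, if_neg (by omega), Nat.sub_self, coeff_map, hD0, map_one] at h2
      exact one_ne_zero h2
  subst hij
  have hc1 : D.map φ = C c * (f.map φ ^ p ^ r * G ^ (p ^ r - 1)) := by
    have hX : (X : (ZMod p)[X]) ^ i ≠ 0 := pow_ne_zero _ X_ne_zero
    apply mul_left_cancel₀ hX
    rw [hc]
    ring
  have h3 := congrArg (fun g => g.eval 1) hc1
  simp only [eval_mul, eval_C, eval_pow, hG1] at h3
  have h4 : (D.map φ).eval 1 = 1 := by
    have := Polynomial.eval_map_apply φ (1 : ℤ) (p := D)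
    rw [map_one] at this
    rw [this, hD1, map_one]
  have h5 : (f.map φ).eval 1 = 1 := by
    have := Polynomial.eval_map_apply φ (1 : ℤ) (p := f)
    rw [map_one] at this
    rw [this, hf, map_one]
  rw [h4, h5, one_pow, one_mul] at h3
  have hl : (lam : ZMod p) ≠ 0 := by
    intro h6
    rw [h6, zero_pow (by omega), mul_zero] at h3
    exact one_ne_zero h3
  have hl2 : (lam : ZMod p) ^ (p ^ r - 1) = 1 := by
    have h6 : (lam : ZMod p) ^ p ^ r = lam := ZMod.pow_card_pow _
    have h7 : (lam : ZMod p) ^ (p ^ r - 1) * lam = 1 * lam := by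
      rw [← pow_succ, Nat.sub_add_cancel (by omega), h6, one_mul]
    exact mul_right_cancel₀ hl h7
  rw [hl2, mul_one] at h3
  refine ⟨?_, ?_⟩
  · apply Nat.Coprime.pow_left
    rw [hp.coprime_iff_not_dvd]
    intro h6
    exact hl ((ZMod.natCast_eq_zero_iff lam p).2 h6)
  · rw [hc1, ← h3, map_one, one_mul]

end Pool.Agent.Helper29.LS
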