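import Pool.Agent.Helper29.LS.Roots
import Pool.Agent.Helper29.LS.Field

namespace Pool.Agent.Helper29.LS

open Polynomial IntermediateField

lemma eval_bound {E : ℤ[X]} (hE : ∀ n, |E.coeff n| ≤ 1) {N : ℕ} (hN : E.natDegree = N) (z : ℂ) :
    ‖aeval z E‖ ≤ (N + 1) * (max 1 ‖z‖) ^ N := by
  rw [aeval_eq_sum_range, hN]
  calc ‖∑ i ∈ Finset.range (N + 1), E.coeff i • z ^ i‖
      ≤ ∑ i ∈ Finset.range (N + 1), ‖E.coeff i • z ^ i‖ := norm_sum_le _ _
    _ ≤ ∑ i ∈ Finset.range (N + 1), (max 1 ‖z‖) ^ N := by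
        apply Finset.sum_le_sum
        intro i hi
        rw [Finset.mem_range] at hi
        rw [zsmul_eq_mul, norm_mul, norm_pow]
        have h1 : ‖((E.coeff i : ℤ) : ℂ)‖ ≤ 1 := by
          rw [Complex.norm_intCast]
          exact_mod_cast hE i
        have h2 : ‖z‖ ^ i ≤ (max 1 ‖z‖) ^ N :=
          (pow_le_pow_left₀ (norm_nonneg _) (le_max_right _ _) i).trans
            (pow_le_pow_right₀ (le_max_left _ _) (by omega))
        calc _ ≤ 1 * (max 1 ‖z‖) ^ N :=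
              mul_le_mul h1 h2 (by positivity) zero_le_one
          _ = _ := one_mul _
    _ = _ := by
        rw [Finset.sum_const, Finset.card_range, nsmul_eq_mul]
        push_cast
        ring

/-- norms of `w(β)` -/
lemma norm_ge_one {b : ℂ} [FiniteDimensional ℚ ℚ⟮b⟯] (hb : IsIntegral ℤ b) (w : ℤ[X])
    (hw : aeval b w ≠ 0) :
    1 ≤ ∏ σ : (ℚ⟮b⟯ →ₐ[ℚ] ℂ), ‖aeval (σ (AdjoinSimple.gen ℚ b)) w‖ := by
  classical
  have hbQ : IsIntegral ℚ b := hb.tower_top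
  set x : ℚ⟮b⟯ := aeval (AdjoinSimple.gen ℚ b) w with hx
  have hgen : IsIntegral ℤ (AdjoinSimple.gen ℚ b) := by
    have h1 : IsIntegral ℤ ((AdjoinSimple.gen ℚ b : ℚ⟮b⟯) : ℂ) := by
      rw [AdjoinSimple.coe_gen]
      exact hb
    exact (isIntegral_algHom_iff ((ℚ⟮b⟯).val.restrictScalars ℤ) Subtype.val_injective).1 h1
  have hxi : IsIntegral ℤ x := by
    rw [hx]
    exact adjoin_le_integralClosure hgen (aeval_mem_adjoin_singleton ℤ _)
  have hx0 : x ≠ 0 := by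
    intro h
    apply hw
    have h1 := congrArg (fun y : ℚ⟮b⟯ => ((ℚ⟮b⟯).val.restrictScalars ℤ) y) h
    simp only [hx, map_zero] at h1
    rw [← aeval_algHom_apply] at h1
    exact h1
  have hnorm : IsIntegral ℤ (Algebra.norm ℚ x) := Algebra.isIntegral_norm ℚ hxi
  obtain ⟨n, hn⟩ := IsIntegrallyClosed.isIntegral_iff.1 hnorm
  have hn0 : n ≠ 0 := by
    rintro rfl
    rw [map_zero] at hn
    exact (Algebra.norm_ne_zero_iff.2 hx0) hn.symm
  have hprod := Algebra.norm_eq_prod_embeddings ℚ ℂ x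
  have h3 : ∀ σ : (ℚ⟮b⟯ →ₐ[ℚ] ℂ), σ x = aeval (σ (AdjoinSimple.gen ℚ b)) w := by
    intro σ
    rw [hx]
    exact (aeval_algHom_apply (σ.restrictScalars ℤ) _ w).symm
  rw [← norm_prod]
  rw [← Finset.prod_congr rfl (fun σ _ => h3 σ), ← hprod, ← hn]
  simp only [algebraMap_int_eq, eq_intCast, eq_ratCast, Rat.cast_intCast, Complex.norm_intCast]
  exact_mod_cast Int.one_le_abs hn0

end Pool.Agent.Helper29.LS
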