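import Pool.Agent.Helper29.LS.Core

namespace Pool.Agent.Helper29.LS

open Polynomial Finset

lemma coeff_mul_one_sub {R : Type*} [CommRing R] (a : ℕ → R) (k n : ℕ) :
    PowerSeries.coeff n (PowerSeries.mk a * (1 - PowerSeries.X ^ k)) =
      a n - (if k ≤ n then a (n - k) else 0) := by
  rw [mul_sub, mul_one, map_sub, mul_comm, PowerSeries.coeff_X_pow_mul', PowerSeries.coeff_mk]
  simp only [PowerSeries.coeff_mk]

lemma ez_sub (a : ℕ → ℤ) (n k : ℕ) :
    ez a ((n : ℤ) - k) = if k ≤ n then a (n - k) else 0 := by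
  unfold ez
  by_cases h : k ≤ n
  · rw [if_pos h, if_neg (by omega)]
    congr 1
    omega
  · rw [if_neg h, if_pos (by omega)]

lemma expand_eq_pow {p : ℕ} [Fact p.Prime] (r : ℕ) (g : (ZMod p)[X]) :
    expand (ZMod p) (p ^ r) g = g ^ p ^ r := by
  induction r generalizing g with
  | zero => simp
  | succ r ih =>
    rw [pow_succ, expand_mul, ZMod.expand_card, ih, pow_mul, ← pow_mul, ← pow_mul, mul_comm]

section mod

variable {p : ℕ} [Fact p.Prime] (r lam : ℕ) (D f : ℤ[X])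

lemma star (h : D.map (Int.castRingHom (ZMod p)) =
      (f.map (Int.castRingHom (ZMod p))) ^ p ^ r * (∑ k ∈ range lam, X ^ k) ^ (p ^ r - 1)) :
    D.map (Int.castRingHom (ZMod p)) * (1 - X) ^ (p ^ r - 1) * (1 - X ^ lam) =
      expand (ZMod p) (p ^ r) (f.map (Int.castRingHom (ZMod p))) * (1 - X ^ (p ^ r * lam)) := by
  have hq : 0 < p ^ r := pow_pos (Fact.out : p.Prime).pos _
  have hg : (∑ k ∈ range lam, (X : (ZMod p)[X]) ^ k) * (1 - X) = 1 - X ^ lam := by
    have := geom_sum_mul (X : (ZMod p)[X]) lam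
    linear_combination -this
  have h2 : (1 - X ^ (p ^ r * lam) : (ZMod p)[X]) = (1 - X ^ lam) ^ p ^ r := by
    rw [← expand_eq_pow, map_sub, map_one, map_pow, expand_X, ← pow_mul]
  rw [h, expand_eq_pow, h2]
  calc _ = (f.map (Int.castRingHom (ZMod p))) ^ p ^ r *
        (((∑ k ∈ range lam, X ^ k) * (1 - X)) ^ (p ^ r - 1)) * (1 - X ^ lam) := by
        rw [mul_pow]; ring
    _ = _ := by
        rw [hg, mul_assoc, ← pow_succ, Nat.sub_add_cancel hq]

lemma series_mod (h : D.map (Int.castRingHom (ZMod p)) =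
      (f.map (Int.castRingHom (ZMod p))) ^ p ^ r * (∑ k ∈ range lam, X ^ k) ^ (p ^ r - 1)) :
    PowerSeries.mk (fun n => ps (D.map (Int.castRingHom (ZMod p))) n) *
        (1 - PowerSeries.X ^ lam) =
      PowerSeries.mk (fun n => if p ^ r ∣ n then
        ps (f.map (Int.castRingHom (ZMod p))) (n / p ^ r) else 0) *
        (1 - PowerSeries.X ^ (p ^ r * lam)) := by
  have hq : 0 < p ^ r := pow_pos (Fact.out : p.Prime).pos _
  have h1 := congrArg (fun g : (ZMod p)[X] => (g : PowerSeries (ZMod p))) (star r lam D f h)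
  simp only [Polynomial.coe_mul, Polynomial.coe_sub, Polynomial.coe_one, Polynomial.coe_pow,
    Polynomial.coe_X] at h1
  rw [← one_sub_X_mul_ps, ← ps_ite _ hq] at h1
  have h3 : ((1 - PowerSeries.X) ^ p ^ r : PowerSeries (ZMod p)) =
      1 - PowerSeries.X ^ p ^ r := by
    have h4 : ((1 - X) ^ p ^ r : (ZMod p)[X]) = 1 - X ^ p ^ r := by
      rw [sub_pow_char_pow, one_pow]
    have h5 := congrArg (fun g : (ZMod p)[X] => (g : PowerSeries (ZMod p))) h4
    simpa only [Polynomial.coe_mul, Polynomial.coe_sub, Polynomial.coe_one, Polynomial.coe_pow,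
      Polynomial.coe_X] using h5
  have h6 : (1 - PowerSeries.X ^ p ^ r : PowerSeries (ZMod p)) ≠ 0 := by
    intro h7
    have := congrArg (PowerSeries.coeff 0) h7
    simp at this
  apply mul_left_cancel₀ h6
  have h8 : ((1 - PowerSeries.X) ^ p ^ r : PowerSeries (ZMod p)) =
      (1 - PowerSeries.X) ^ (p ^ r - 1) * (1 - PowerSeries.X) := by
    rw [← pow_succ, Nat.sub_add_cancel hq]
  calc _ = (1 - PowerSeries.X) *
        PowerSeries.mk (fun n => ps (D.map (Int.castRingHom (ZMod p))) n) *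
        (1 - PowerSeries.X) ^ (p ^ r - 1) * (1 - PowerSeries.X ^ lam) := by
        rw [← h3, h8]; ring
    _ = _ := by rw [h1]; ring

lemma step_mod (h : D.map (Int.castRingHom (ZMod p)) =
      (f.map (Int.castRingHom (ZMod p))) ^ p ^ r * (∑ k ∈ range lam, X ^ k) ^ (p ^ r - 1))
    (n : ℕ) :
    (((ez (ps D) n - ez (ps D) (n - lam) : ℤ)) : ZMod p) =
      if p ^ r ∣ n then ((ez (ps f) ((n / p ^ r : ℕ) : ℤ) -
        ez (ps f) (((n / p ^ r : ℕ) : ℤ) - lam) : ℤ) : ZMod p) else 0 := by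
  have hq : 0 < p ^ r := pow_pos (Fact.out : p.Prime).pos _
  have h1 := congrArg (PowerSeries.coeff n) (series_mod r lam D f h)
  rw [coeff_mul_one_sub, coeff_mul_one_sub] at h1
  simp only [ps_map, Int.coe_castRingHom] at h1
  rw [ez_sub, ez_nat, ez_nat, ez_sub]
  push_cast
  rw [h1]
  by_cases hn : p ^ r ∣ n
  · obtain ⟨m, rfl⟩ := hn
    rw [if_pos (dvd_mul_right _ _), if_pos (dvd_mul_right _ _), Nat.mul_div_cancel_left _ hq]
    congr 1
    by_cases hm : lam ≤ m
    · have h3 : p ^ r * m - p ^ r * lam = p ^ r * (m - lam) := (Nat.mul_sub _ _ _).symm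
      rw [if_pos (Nat.mul_le_mul_left _ hm), if_pos hm, h3, if_pos (dvd_mul_right _ _),
        Nat.mul_div_cancel_left _ hq]
    · have h3 : ¬ p ^ r * lam ≤ p ^ r * m := fun h4 => hm (Nat.le_of_mul_le_mul_left h4 hq)
      rw [if_neg h3, if_neg hm]
  · rw [if_neg hn, if_neg hn, zero_sub]
    by_cases hm : p ^ r * lam ≤ n
    · rw [if_pos hm, if_neg, neg_zero]
      intro h4
      exact hn ((Nat.dvd_sub_iff_left hm (dvd_mul_right _ _)).1 h4)
    · rw [if_neg hm, neg_zero]

end mod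

end Pool.Agent.Helper29.LS
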