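import Pool.Agent.Helper29.LS.Series

namespace Pool.Agent.Helper29.LS

open Polynomial Finset

lemma zmod_eq {p : ℕ} [Fact p.Prime] {a b : ℤ} (ha : a = 0 ∨ a = 1) (hb : b = 0 ∨ b = 1)
    (h : ((a - b : ℤ) : ZMod p) = 0) : a = b := by
  rcases ha with rfl | rfl <;> rcases hb with rfl | rfl <;> simp at h ⊢

lemma ez_01 {a : ℕ → ℤ} (ha : ∀ m, a m = 0 ∨ a m = 1) (n : ℤ) : ez a n = 0 ∨ ez a n = 1 := by
  unfold ez
  split_ifs
  · exact Or.inl rfl
  · exact ha _

section

variable {p : ℕ} [Fact p.Prime] {r lam : ℕ} {D f : ℤ[X]}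

lemma stepA (hD : ∀ m, ps D m = 0 ∨ ps D m = 1) (h : D.map (Int.castRingHom (ZMod p)) =
      (f.map (Int.castRingHom (ZMod p))) ^ p ^ r * (∑ k ∈ range lam, X ^ k) ^ (p ^ r - 1))
    (n : ℤ) (hn : ¬ ((p ^ r : ℕ) : ℤ) ∣ n) : ez (ps D) n = ez (ps D) (n - lam) := by
  rcases lt_or_ge n 0 with h0 | h0
  · rw [ez_neg _ h0, ez_neg _ (by omega)]
  · obtain ⟨k, rfl⟩ := Int.eq_ofNat_of_zero_le h0
    apply zmod_eq (p := p) (ez_01 hD _) (ez_01 hD _)
    rw [step_mod r lam D f h, if_neg]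
    intro h1
    exact hn (by exact_mod_cast h1)

lemma stepB (hD : ∀ m, ps D m = 0 ∨ ps D m = 1) (h : D.map (Int.castRingHom (ZMod p)) =
      (f.map (Int.castRingHom (ZMod p))) ^ p ^ r * (∑ k ∈ range lam, X ^ k) ^ (p ^ r - 1))
    (hc : Nat.Coprime (p ^ r) lam)
    (n : ℤ) (hn : ((p ^ r : ℕ) : ℤ) ∣ n) :
    ez (ps D) (n - lam) = ez (ps D) (n - lam * (p ^ r : ℕ)) := by
  have hq : 0 < p ^ r := pow_pos (Fact.out : p.Prime).pos _
  have key : ∀ j : ℕ, 1 ≤ j → j ≤ p ^ r → ez (ps D) (n - lam) = ez (ps D) (n - lam * (j : ℕ)) := by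
    intro j hj
    induction j, hj using Nat.le_induction with
    | base => intro _; simp
    | succ j hj ih =>
      intro hj2
      rw [ih (by omega), stepA (f := f) (lam := lam) hD h]
      · congr 1
        push_cast
        ring
      · intro h1
        have h2 : ((p ^ r : ℕ) : ℤ) ∣ ((lam * j : ℕ) : ℤ) := by
          have h5 := dvd_sub hn h1
          have e : ((lam * j : ℕ) : ℤ) = n - (n - (lam : ℤ) * (j : ℤ)) := by
            push_cast
            ring
          rw [e]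
          exact h5
        have h3 : p ^ r ∣ lam * j := by exact_mod_cast h2
        have h4 := hc.dvd_of_dvd_mul_left h3
        have := Nat.le_of_dvd (by omega) h4
        omega
  exact key (p ^ r) hq le_rfl

/-- the sequence `T` -/
def TT (q : ℕ) (D : ℤ[X]) (m : ℕ) : ℤ := ps D (q * m)

lemma ez_TT (hq : 0 < p ^ r) (m : ℤ) : ez (TT (p ^ r) D) m = ez (ps D) ((p ^ r : ℕ) * m) := by
  unfold ez
  by_cases h : m < 0
  · rw [if_pos h, if_pos]
    have : (0 : ℤ) < (p ^ r : ℕ) := by exact_mod_cast hq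
    nlinarith
  · have h0 : 0 ≤ m := not_lt.1 h
    obtain ⟨k, rfl⟩ := Int.eq_ofNat_of_zero_le h0
    rw [if_neg h, if_neg (not_lt.2 (by positivity))]
    unfold TT
    congr 1

lemma stepC (hlam : 1 ≤ lam) (hD : ∀ m, ps D m = 0 ∨ ps D m = 1)
    (h : D.map (Int.castRingHom (ZMod p)) =
      (f.map (Int.castRingHom (ZMod p))) ^ p ^ r * (∑ k ∈ range lam, X ^ k) ^ (p ^ r - 1))
    (hc : Nat.Coprime (p ^ r) lam) (m : ℕ) :
    ((TT (p ^ r) D m : ℤ) : ZMod p) = ((ps f m : ℤ) : ZMod p) := by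
  have hq : 0 < p ^ r := pow_pos (Fact.out : p.Prime).pos _
  induction m using Nat.strong_induction_on with
  | _ m ih =>
    have h1 := step_mod r lam D f h (p ^ r * m)
    rw [if_pos (dvd_mul_right _ _), Nat.mul_div_cancel_left _ hq,
      stepB (f := f) hD h hc _ (by exact_mod_cast dvd_mul_right _ _)] at h1
    have h2 : ((p ^ r * m : ℕ) : ℤ) - lam * (p ^ r : ℕ) = (p ^ r : ℕ) * ((m : ℤ) - lam) := by
      push_cast; ring
    rw [h2, ← ez_TT hq, ez_nat, ez_nat, ez_sub, ez_sub] at h1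
    change ((TT (p ^ r) D m - _ : ℤ) : ZMod p) = _ at h1
    push_cast at h1
    by_cases hm : lam ≤ m
    · rw [if_pos hm, if_pos hm] at h1
      have h3 := ih (m - lam) (by omega)
      rw [h3] at h1
      exact sub_left_injective h1
    · rw [if_neg hm, if_neg hm] at h1
      simpa using h1

end

/-- the polynomial with partial sums `T` -/
noncomputable def EE (q : ℕ) (D : ℤ[X]) : ℤ[X] :=
  ∑ m ∈ range (D.natDegree + 1), monomial m (ez (TT q D) m - ez (TT q D) ((m : ℤ) - 1))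

lemma EE_coeff {q : ℕ} (hq : 0 < q) (D : ℤ[X]) (m : ℕ) :
    (EE q D).coeff m = ez (TT q D) m - ez (TT q D) ((m : ℤ) - 1) := by
  unfold EE
  rw [finsetSum_coeff]
  simp only [coeff_monomial]
  rw [Finset.sum_ite_eq' (range (D.natDegree + 1)) m]
  by_cases hm : m ∈ range (D.natDegree + 1)
  · rw [if_pos hm]
  · rw [if_neg hm]
    rw [mem_range] at hm
    have h1 : ((m : ℤ) - 1) = ((m - 1 : ℕ) : ℤ) := by omega
    rw [h1, ez_nat, ez_nat]
    unfold TT
    have h2 : D.natDegree ≤ q * m := by nlinarith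
    have h3 : D.natDegree ≤ q * (m - 1) := by
      have : m - 1 ≤ q * (m - 1) := Nat.le_mul_of_pos_left _ hq
      omega
    rw [ps_of_le _ h2, ps_of_le _ h3, sub_self]

lemma ps_EE {q : ℕ} (hq : 0 < q) (D : ℤ[X]) (m : ℕ) : ps (EE q D) m = TT q D m := by
  induction m with
  | zero =>
    have h1 : ez (TT q D) (((0 : ℕ) : ℤ) - 1) = 0 := ez_neg _ (by norm_num)
    rw [ps_zero, EE_coeff hq, h1, sub_zero, ez_nat]
  | succ m ih =>
    rw [ps_succ, ih, EE_coeff hq, ez_nat]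
    have h1 : (((m + 1 : ℕ) : ℤ) - 1) = (m : ℤ) := by push_cast; ring
    rw [h1, ez_nat]
    ring

lemma natDegree_EE_le {q : ℕ} (D : ℤ[X]) : (EE q D).natDegree ≤ D.natDegree := by
  unfold EE
  apply Polynomial.natDegree_sum_le_of_forall_le
  intro i hi
  rw [mem_range] at hi
  exact (natDegree_monomial_le _).trans (by omega)

lemma OSType_EE {q : ℕ} (hq : 0 < q) {D : ℤ[X]} (hD : OSType D) : OSType (EE q D) := by
  obtain ⟨h0, h1, h2⟩ := hD
  refine ⟨?_, ?_, ?_⟩
  · rw [← ps_zero, ps_EE hq]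
    unfold TT
    rw [mul_zero, ps_zero, h0]
  · rw [← ps_of_le (EE q D) (natDegree_EE_le D), ps_EE hq]
    unfold TT
    rw [ps_of_le _ (Nat.le_mul_of_pos_left _ hq), h1]
  · intro m
    rw [ps_EE hq]
    exact h2 _

lemma eq_of_ps {R : Type*} [CommRing R] {g h : R[X]} (H : ∀ m, ps g m = ps h m) : g = h := by
  ext m
  rcases m with _ | m
  · have := H 0
    rwa [ps_zero, ps_zero] at this
  · have h1 := H (m + 1)
    rw [ps_succ, ps_succ, H m] at h1
    exact add_left_cancel h1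

end Pool.Agent.Helper29.LS
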